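import Pool.Agent.Helper5_OPEN.Stmt
import Pool.Agent.Helper1_Gen.PolyGeom

/-!
Module BDRY, geometry: a triangle with flat vertices splits into three chains.
-/

namespace Pool.Agent.H5O.H32

open MeasureTheory Complex Filter Topology Pool.Agent.H16Iso Pool.Agent.H1Gen Pool.Agent.H5O

/-- index, as an element of `Fin (N + 3)` -/
def ix (N k : ℕ) : Fin (N + 3) := Fin.ofNat (N + 3) k

theorem ix_val (N k : ℕ) : (ix N k).val = k % (N + 3) := rfl

theorem ix_succ (N : ℕ) (k : ℕ) : ix N (k + 1) = ix N k + 1 := by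
  apply Fin.ext
  rw [Fin.val_add, ix_val, ix_val]
  simp [Nat.add_mod]

theorem ix_last (N : ℕ) : ix N (N + 3) = 0 := by
  apply Fin.ext
  rw [ix_val]; simp

theorem ix_zero (N : ℕ) : ix N 0 = 0 := by
  apply Fin.ext
  rw [ix_val]; simp

theorem ix_self (N : ℕ) (j : Fin (N + 3)) : ix N j = j := by
  apply Fin.ext
  rw [ix_val, Nat.mod_eq_of_lt j.2]

theorem ix_inj {N j k : ℕ} (hj : j < N + 3) (hk : k < N + 3) (h : ix N j = ix N k) : j = k := by
  have := congrArg Fin.val h
  rwa [ix_val, ix_val, Nat.mod_eq_of_lt hj, Nat.mod_eq_of_lt hk] at this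

theorem ix_pred (N : ℕ) {k : ℕ} (hk : 0 < k) : ix N (k - 1) = ix N k - 1 := by
  obtain ⟨m, rfl⟩ : ∃ m, k = m + 1 := ⟨k - 1, by omega⟩
  rw [ix_succ, Nat.add_sub_cancel, add_sub_cancel_right]

theorem sum_ix (N : ℕ) (f : Fin (N + 3) → ℝ) :
    ∑ j, f j = ∑ k ∈ Finset.range (N + 3), f (ix N k) := by
  rw [← Fin.sum_univ_eq_sum_range (fun k => f (ix N k)) (N + 3)]
  refine Finset.sum_congr rfl fun j _ => ?_
  rw [ix_self]

/-- the closed triangle -/
def TT : Set ℂ := {z | 0 ≤ z.im ∧ z.im ≤ Real.sqrt 3 * z.re ∧ z.re ≤ 1}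

theorem convex_TT : Convex ℝ TT := by
  intro x hx y hy a b ha hb hab
  obtain ⟨x1, x2, x3⟩ := hx
  obtain ⟨y1, y2, y3⟩ := hy
  have hre : (a • x + b • y).re = a * x.re + b * y.re := by simp
  have him : (a • x + b • y).im = a * x.im + b * y.im := by simp
  refine ⟨?_, ?_, ?_⟩
  · rw [him]; positivity
  · rw [him, hre]
    have k1 := mul_le_mul_of_nonneg_left x2 ha
    have k2 := mul_le_mul_of_nonneg_left y2 hb
    linarith
  · rw [hre]
    have k1 := mul_le_mul_of_nonneg_left x3 ha
    have k2 := mul_le_mul_of_nonneg_left y3 hb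
    linarith

theorem crn_zero : crn 0 = 0 := rfl
theorem crn_one : crn 1 = 1 := rfl
theorem crn_two : crn 2 = ⟨1, Real.sqrt 3⟩ := rfl

theorem mem_range_crn {z : ℂ} : z ∈ Set.range crn ↔ z = 0 ∨ z = 1 ∨ z = ⟨1, Real.sqrt 3⟩ := by
  constructor
  · rintro ⟨j, rfl⟩
    fin_cases j
    · left; rfl
    · right; left; rfl
    · right; right; rfl
  · rintro (h | h | h)
    · exact ⟨0, h.symm⟩
    · exact ⟨1, h.symm⟩
    · exact ⟨2, h.symm⟩

theorem hull_crn_sub : convexHull ℝ (Set.range crn) ⊆ TT := by
  refine convexHull_min ?_ convex_TT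
  intro z hz
  rw [mem_range_crn] at hz
  have hs : 0 ≤ Real.sqrt 3 := Real.sqrt_nonneg 3
  rcases hz with h | h | h
  · rw [h]; exact ⟨by simp, by simp, by simp⟩
  · rw [h]; exact ⟨by simp, by simp, by simp⟩
  · rw [h]; exact ⟨by simp, by simp, by simp⟩

theorem hull_eq {N : ℕ} {p : Fin (N + 3) → ℂ} (hp : Flat p) :
    convexHull ℝ (Set.range p) = convexHull ℝ (Set.range crn) := by
  have hne : (poly crn).Nonempty := by
    have hccw : CCW crn := by
      intro i j k hij hjk
      have hs : 0 < Real.sqrt 3 := Real.sqrt_pos.mpr (by norm_num)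
      fin_cases i <;> fin_cases j <;> fin_cases k <;>
        first
        | (exfalso; revert hij hjk; decide)
        | (simp [det, crn]; try exact hs)
    refine ⟨⟨2 / 3, Real.sqrt 3 / 3⟩, ?_⟩
    have hs : 0 < Real.sqrt 3 := Real.sqrt_pos.mpr (by norm_num)
    rw [mem_poly_iff (m := 0) hccw]
    intro j
    fin_cases j
    · show 0 < det (crn 1 - crn 0) (_ - crn 0)
      simp [det, crn]
    · show 0 < det (crn 2 - crn 1) (_ - crn 1)
      simp [det, crn]; nlinarith
    · show 0 < det (crn 0 - crn 2) (_ - crn 2)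
      simp [det, crn]; nlinarith
  have hpe : poly p = poly crn := hp.2.2.1
  have h1 : ∀ (n : ℕ) (v : Fin n → ℂ), (poly v).Nonempty →
      closure (poly v) = convexHull ℝ (Set.range v) := by
    intro n v hv
    have hcl : IsClosed (convexHull ℝ (Set.range v)) :=
      (Set.finite_range v).isClosed_convexHull ℝ
    unfold poly at hv ⊢
    rw [(convex_convexHull ℝ _).closure_interior_eq_closure_of_nonempty_interior hv, hcl.closure_eq]
  rw [← h1 _ p (by rw [hpe]; exact hne), ← h1 _ crn hne, hpe]

theorem mem_TT {N : ℕ} {p : Fin (N + 3) → ℂ} (hp : Flat p) (j : Fin (N + 3)) : p j ∈ TT := by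
  apply hull_crn_sub
  rw [← hull_eq hp]
  exact subset_convexHull ℝ _ ⟨j, rfl⟩

theorem exists_eq_of_max {N : ℕ} {p : Fin (N + 3) → ℂ} (hp : Flat p) {c : ℂ}
    (hc : c ∈ Set.range crn) (f : ℂ →ₗ[ℝ] ℝ) (hf : ∀ z ∈ TT, z ≠ c → f z < f c) :
    ∃ j, p j = c := by
  by_contra hcon
  push Not at hcon
  have h1 : convexHull ℝ (Set.range p) ⊆ {z | f z < f c} := by
    refine convexHull_min ?_ ?_
    · rintro _ ⟨j, rfl⟩
      exact hf _ (mem_TT hp j) (hcon j)
    · exact convex_halfSpace_lt f.isLinear _
  have h2 : c ∈ convexHull ℝ (Set.range p) := by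
    rw [hull_eq hp]
    exact subset_convexHull ℝ _ hc
  exact lt_irrefl (f c) (show f c < f c from h1 h2)

theorem exists_one {N : ℕ} {p : Fin (N + 3) → ℂ} (hp : Flat p) : ∃ j, p j = 1 := by
  refine exists_eq_of_max hp (mem_range_crn.mpr (Or.inr (Or.inl rfl)))
    (Complex.reLm - Complex.imLm) ?_
  intro z hz hne
  obtain ⟨h1, h2, h3⟩ := hz
  simp only [LinearMap.sub_apply, Complex.reLm_coe, Complex.imLm_coe, Complex.one_re,
    Complex.one_im, sub_zero]
  by_contra hcon
  push Not at hcon
  apply hne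
  apply Complex.ext
  · rw [Complex.one_re]; linarith
  · rw [Complex.one_im]; linarith

theorem exists_top {N : ℕ} {p : Fin (N + 3) → ℂ} (hp : Flat p) : ∃ j, p j = ⟨1, Real.sqrt 3⟩ := by
  refine exists_eq_of_max hp (mem_range_crn.mpr (Or.inr (Or.inr rfl))) Complex.imLm ?_
  intro z hz hne
  obtain ⟨h1, h2, h3⟩ := hz
  have hs : 0 < Real.sqrt 3 := Real.sqrt_pos.mpr (by norm_num)
  simp only [Complex.imLm_coe]
  by_contra hcon
  push Not at hcon
  apply hne
  have h4 : 1 ≤ z.re := by
    by_contra h
    push Not at h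
    nlinarith
  have h5 : z.re = 1 := le_antisymm h3 h4
  rw [h5] at h2
  apply Complex.ext
  · exact h5
  · show z.im = Real.sqrt 3
    linarith

/-- all the vertices are on the left of all the sides -/
theorem left_cond {N : ℕ} {p : Fin (N + 3) → ℂ} (hp : WC p) (j i : Fin (N + 3)) :
    0 ≤ det (p (j + 1) - p j) (p i - p j) := by
  by_cases hlast : j = Fin.last (N + 2)
  · have hj1 : j + 1 = 0 := by rw [hlast]; exact Fin.last_add_one _
    rw [hj1]
    rcases eq_or_ne i 0 with h0 | h0
    · rw [h0, det_self]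
    rcases eq_or_ne i j with h1 | h1
    · rw [h1, sub_self, det_zero_right]
    have hi : 0 < i := Fin.pos_iff_ne_zero.mpr h0
    have hij : i < j := by
      rw [hlast]
      rw [hlast] at h1
      exact Fin.lt_last_iff_ne_last.mpr h1
    have := hp 0 i j hi hij
    have e : det (p i - p 0) (p j - p 0) = det (p 0 - p j) (p i - p j) := by
      unfold det; simp only [Complex.sub_re, Complex.sub_im]; ring
    rwa [e] at this
  · have hjlt : j < Fin.last (N + 2) := Fin.lt_last_iff_ne_last.mpr hlast
    have hval : (j + 1).val = j.val + 1 := Fin.val_add_one_of_lt hjlt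
    rcases lt_trichotomy i j with h | h | h
    · have := hp i j (j + 1) h (by rw [Fin.lt_def, hval]; omega)
      have e : det (p j - p i) (p (j + 1) - p i) = det (p (j + 1) - p j) (p i - p j) := by
        unfold det; simp only [Complex.sub_re, Complex.sub_im]; ring
      rwa [e] at this
    · rw [h, sub_self, det_zero_right]
    · rcases eq_or_ne i (j + 1) with h1 | h1
      · rw [h1, det_self]
      · have h2 : j + 1 < i := by
          rw [Fin.lt_def, hval]
          rw [Fin.lt_def] at h
          have : i.val ≠ j.val + 1 := by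
            intro hh
            exact h1 (Fin.ext (by rw [hval, hh]))
          omega
        exact hp j (j + 1) i (by rw [Fin.lt_def, hval]; omega) h2

/-- the vertices with natural indices -/
def PP {N : ℕ} (p : Fin (N + 3) → ℂ) (k : ℕ) : ℂ := p (ix N k)

def Bot {N : ℕ} (p : Fin (N + 3) → ℂ) (k : ℕ) : Prop :=
  (PP p k).im = 0 ∧ (PP p (k + 1)).im = 0 ∧ (PP p k).re < (PP p (k + 1)).re
def Rig {N : ℕ} (p : Fin (N + 3) → ℂ) (k : ℕ) : Prop :=
  (PP p k).re = 1 ∧ (PP p (k + 1)).re = 1 ∧ (PP p k).im < (PP p (k + 1)).im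
def Hyp {N : ℕ} (p : Fin (N + 3) → ℂ) (k : ℕ) : Prop :=
  (PP p k).im = Real.sqrt 3 * (PP p k).re ∧ (PP p (k + 1)).im = Real.sqrt 3 * (PP p (k + 1)).re ∧
    (PP p (k + 1)).re < (PP p k).re

theorem trich {N : ℕ} {p : Fin (N + 3) → ℂ} (hp : Flat p) (k : ℕ) : Bot p k ∨ Rig p k ∨ Hyp p k := by
  obtain ⟨j1, hj1⟩ := exists_one hp
  obtain ⟨j2, hj2⟩ := exists_top hp
  have hs : 0 < Real.sqrt 3 := Real.sqrt_pos.mpr (by norm_num)
  have hss : Real.sqrt 3 * Real.sqrt 3 = 3 := Real.mul_self_sqrt (by norm_num)
  have hwc := hp.1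
  have hP : PP p (k + 1) = p (ix N k + 1) := by unfold PP; rw [ix_succ]
  have hQ : PP p k = p (ix N k) := rfl
  have l0 := left_cond hwc (ix N k) 0
  have l1 := left_cond hwc (ix N k) j1
  have l2 := left_cond hwc (ix N k) j2
  rw [hp.2.2.2] at l0
  rw [hj1] at l1
  rw [hj2] at l2
  have hne : PP p (k + 1) ≠ PP p k := by
    rw [hP, hQ]
    intro h
    have h1 := hp.2.1 h
    have h2 : (1 : Fin (N + 3)) = 0 := by
      exact add_eq_left.mp h1
    have h3 := congrArg Fin.val h2
    simp at h3
  have t1 := mem_TT hp (ix N k)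
  have t2 := mem_TT hp (ix N k + 1)
  rw [← hQ] at t1 l0 l1 l2
  rw [← hP] at t2 l0 l1 l2
  unfold Bot Rig Hyp
  set P := PP p k with hPdef
  set Q := PP p (k + 1) with hQdef
  unfold det at l0 l1 l2
  simp only [Complex.sub_re, Complex.sub_im, Complex.zero_re, Complex.zero_im, Complex.one_re,
    Complex.one_im] at l0 l1 l2
  obtain ⟨x, y⟩ := P
  obtain ⟨x', y'⟩ := Q
  obtain ⟨a1, a2, a3⟩ := t1
  obtain ⟨b1, b2, b3⟩ := t2
  simp only at l0 l1 l2 a1 a2 a3 b1 b2 b3 ⊢
  -- D0, D1, D2
  set D0 : ℝ := (x' - x) * (0 - y) - (y' - y) * (0 - x) with hD0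
  set D1 : ℝ := (x' - x) * (0 - y) - (y' - y) * (1 - x) with hD1
  set D2 : ℝ := (x' - x) * (Real.sqrt 3 - y) - (y' - y) * (1 - x) with hD2
  have hne' : ¬ (x' = x ∧ y' = y) := by
    rintro ⟨h1, h2⟩
    exact hne (Complex.ext h1 h2)
  have s1 : (Real.sqrt 3 * (1 - x)) * D0 + (Real.sqrt 3 * x - y) * D1 + y * D2 = 0 := by
    rw [hD0, hD1, hD2]; ring
  have s2 : (Real.sqrt 3 * (1 - x')) * D0 + (Real.sqrt 3 * x' - y') * D1 + y' * D2 = 0 := by
    rw [hD0, hD1, hD2]; ring
  have p0 : 0 ≤ Real.sqrt 3 * (1 - x) := mul_nonneg hs.le (by linarith)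
  have p0' : 0 ≤ Real.sqrt 3 * (1 - x') := mul_nonneg hs.le (by linarith)
  have p1 : 0 ≤ Real.sqrt 3 * x - y := by linarith
  have p1' : 0 ≤ Real.sqrt 3 * x' - y' := by linarith
  have m0 := mul_nonneg p0 l0
  have m1 := mul_nonneg p1 l1
  have m2 := mul_nonneg a1 l2
  have m0' := mul_nonneg p0' l0
  have m1' := mul_nonneg p1' l1
  have m2' := mul_nonneg b1 l2
  have z0 : (Real.sqrt 3 * (1 - x)) * D0 = 0 := by linarith
  have z1 : (Real.sqrt 3 * x - y) * D1 = 0 := by linarith
  have z2 : y * D2 = 0 := by linarith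
  have z0' : (Real.sqrt 3 * (1 - x')) * D0 = 0 := by linarith
  have z1' : (Real.sqrt 3 * x' - y') * D1 = 0 := by linarith
  have z2' : y' * D2 = 0 := by linarith
  have d01 : D0 - D1 = y' - y := by rw [hD0, hD1]; ring
  have d21 : D2 - D1 = Real.sqrt 3 * (x' - x) := by rw [hD2, hD1]; ring
  rcases eq_or_lt_of_le l0 with c0 | c0
  · rcases eq_or_lt_of_le l1 with c1 | c1
    · -- bottom
      left
      have hy : y' = y := by linarith
      have hx : x' ≠ x := fun h => hne' ⟨h, hy⟩
      have hy0 : y = 0 := by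
        have h3 : (x' - x) * y = 0 := by
          have : D0 = 0 := c0.symm
          rw [hD0, hy] at this
          linarith
        rcases mul_eq_zero.mp h3 with h | h
        · exact absurd (by linarith) hx
        · exact h
      refine ⟨hy0, by rw [hy, hy0], ?_⟩
      have h4 : 0 ≤ Real.sqrt 3 * (x' - x) := by linarith
      have h5 : 0 ≤ x' - x := by
        by_contra h
        push Not at h
        nlinarith
      exact lt_of_le_of_ne (by linarith) (Ne.symm hx)
    · -- hypotenuse
      right; right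
      have e1 : Real.sqrt 3 * x - y = 0 := by
        rcases mul_eq_zero.mp z1 with h | h
        · exact h
        · linarith
      have e2 : Real.sqrt 3 * x' - y' = 0 := by
        rcases mul_eq_zero.mp z1' with h | h
        · exact h
        · linarith
      refine ⟨by linarith, by linarith, ?_⟩
      have h3 : Real.sqrt 3 * (x' - x) < 0 := by linarith
      by_contra h
      push Not at h
      nlinarith
  · -- right side
    right; left
    have e1 : 1 - x = 0 := by
      rcases mul_eq_zero.mp z0 with h | h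
      · rcases mul_eq_zero.mp h with h | h
        · linarith
        · exact h
      · linarith
    have e2 : 1 - x' = 0 := by
      rcases mul_eq_zero.mp z0' with h | h
      · rcases mul_eq_zero.mp h with h | h
        · linarith
        · exact h
      · linarith
    refine ⟨by linarith, by linarith, ?_⟩
    have h3 : D1 = 0 := by
      rw [hD1, show x' - x = 0 by linarith, e1]; ring
    linarith

theorem PP_mem {N : ℕ} {p : Fin (N + 3) → ℂ} (hp : Flat p) (k : ℕ) : PP p k ∈ TT := mem_TT hp _

theorem PP_inj {N : ℕ} {p : Fin (N + 3) → ℂ} (hp : Flat p) {j k : ℕ} (hj : j < N + 3)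
    (hk : k < N + 3) (h : PP p j = PP p k) : j = k := ix_inj hj hk (hp.2.1 h)

/-- the three chains -/
theorem chains {N : ℕ} {p : Fin (N + 3) → ℂ} (hp : Flat p) :
    ∃ c1 c2 : ℕ, 0 < c1 ∧ c1 < c2 ∧ c2 < N + 3 ∧ PP p c1 = 1 ∧ PP p c2 = ⟨1, Real.sqrt 3⟩ ∧
      (∀ k, k < c1 → Bot p k) ∧ (∀ k, c1 ≤ k → k < c2 → Rig p k) ∧
      ∀ k, c2 ≤ k → k < N + 3 → Hyp p k := by
  have hs : 0 < Real.sqrt 3 := Real.sqrt_pos.mpr (by norm_num)
  obtain ⟨j1, hj1⟩ := exists_one hp
  obtain ⟨j2, hj2⟩ := exists_top hp
  have P1 : PP p j1.val = 1 := by unfold PP; rw [ix_self]; exact hj1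
  have P2 : PP p j2.val = ⟨1, Real.sqrt 3⟩ := by unfold PP; rw [ix_self]; exact hj2
  have P0 : PP p 0 = 0 := by unfold PP; rw [ix_zero]; exact hp.2.2.2
  set c1 := j1.val with hc1
  set c2 := j2.val with hc2
  have hc1N : c1 < N + 3 := j1.2
  have hc2N : c2 < N + 3 := j2.2
  have hc1pos : 0 < c1 := by
    rcases Nat.eq_zero_or_pos c1 with h | h
    · rw [h, P0] at P1
      exact absurd P1 zero_ne_one
    · exact h
  have A : ∀ k, k < c1 → Bot p k := by
    intro k
    induction k with
    | zero =>
      intro _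
      rcases trich hp 0 with h | h | h
      · exact h
      · have := h.1
        rw [P0, Complex.zero_re] at this
        linarith
      · have h1 := h.2.2
        obtain ⟨q1, q2, q3⟩ := PP_mem hp (0 + 1)
        rw [P0, Complex.zero_re] at h1
        nlinarith
    | succ k ih =>
      intro hk
      obtain ⟨i1, i2, i3⟩ := ih (by omega)
      obtain ⟨q1, q2, q3⟩ := PP_mem hp k
      have hre : 0 ≤ (PP p k).re := by
        by_contra h
        push Not at h
        nlinarith
      rcases trich hp (k + 1) with h | h | h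
      · exact h
      · exfalso
        have : PP p (k + 1) = PP p c1 := by
          rw [P1]
          exact Complex.ext h.1 i2
        have := PP_inj hp (by omega) hc1N this
        omega
      · exfalso
        have h1 := h.1
        rw [i2] at h1
        have : 0 < Real.sqrt 3 * (PP p (k + 1)).re := mul_pos hs (by linarith)
        linarith
  have hc12 : c1 < c2 := by
    by_contra h
    push Not at h
    rcases eq_or_lt_of_le h with h | h
    · rw [h, P1] at P2
      have := congrArg Complex.im P2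
      rw [Complex.one_im] at this
      simp only at this
      linarith
    · have := (A c2 h).1
      rw [P2] at this
      simp only at this
      linarith
  have B : ∀ d, c1 + d < c2 → Rig p (c1 + d) := by
    intro d
    induction d with
    | zero =>
      intro _
      rw [Nat.add_zero]
      obtain ⟨q1, q2, q3⟩ := PP_mem hp (c1 + 1)
      rcases trich hp c1 with h | h | h
      · exfalso
        have := h.2.2
        rw [P1, Complex.one_re] at this
        linarith
      · exact h
      · exfalso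
        have := h.1
        rw [P1, Complex.one_re, Complex.one_im] at this
        linarith
    | succ d ih =>
      intro hk
      obtain ⟨i1, i2, i3⟩ := ih (by omega)
      obtain ⟨q1, q2, q3⟩ := PP_mem hp (c1 + d)
      rw [show c1 + (d + 1) = c1 + d + 1 by omega]
      rcases trich hp (c1 + d + 1) with h | h | h
      · exfalso
        have := h.1
        linarith
      · exact h
      · exfalso
        have h1 := h.1
        rw [i2, mul_one] at h1
        have : PP p (c1 + d + 1) = PP p c2 := by
          rw [P2]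
          exact Complex.ext i2 h1
        have := PP_inj hp (by omega) hc2N this
        omega
  have C : ∀ d, c2 + d < N + 3 → Hyp p (c2 + d) := by
    intro d
    induction d with
    | zero =>
      intro _
      rw [Nat.add_zero]
      obtain ⟨q1, q2, q3⟩ := PP_mem hp (c2 + 1)
      rcases trich hp c2 with h | h | h
      · exfalso
        have := h.1
        rw [P2] at this
        simp only at this
        linarith
      · exfalso
        have h1 := h.2.1
        have h2 := h.2.2
        rw [h1] at q2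
        rw [P2] at h2
        simp only at h2
        linarith
      · exact h
    | succ d ih =>
      intro hk
      obtain ⟨i1, i2, i3⟩ := ih (by omega)
      obtain ⟨q1, q2, q3⟩ := PP_mem hp (c2 + d)
      rw [show c2 + (d + 1) = c2 + d + 1 by omega]
      rcases trich hp (c2 + d + 1) with h | h | h
      · exfalso
        have h1 := h.1
        rw [i2] at h1
        have h2 : (PP p (c2 + d + 1)).re = 0 := by
          rcases mul_eq_zero.mp h1 with h | h
          · linarith
          · exact h
        have : PP p (c2 + d + 1) = PP p 0 := by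
          rw [P0]
          exact Complex.ext h2 h.1
        have := PP_inj hp (by omega) (by omega) this
        omega
      · exfalso
        have := h.1
        linarith
      · exact h
  refine ⟨c1, c2, hc1pos, hc12, hc2N, P1, P2, A, ?_, ?_⟩
  · intro k h1 h2
    obtain ⟨d, rfl⟩ : ∃ d, k = c1 + d := ⟨k - c1, by omega⟩
    exact B d h2
  · intro k h1 h2
    obtain ⟨d, rfl⟩ : ∃ d, k = c2 + d := ⟨k - c2, by omega⟩
    exact C d h2

end Pool.Agent.H5O.H32
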