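import Pool.Agent.Helper32_OPEN.Limit
import Pool.Agent.Helper32_OPEN.Geo

/-!
Module BDRY: rigidity of the first order condition.
-/

namespace Pool.Agent.H5O.H32

open MeasureTheory Complex Filter Topology Pool.Agent.H16Iso Pool.Agent.H1Gen Pool.Agent.H5O

/-- the constant of the boundary densities -/
noncomputable def K0 : ℝ := 8 * Real.pi ^ 2 / (9 * Real.sqrt 3)

theorem K0_pos : 0 < K0 := by
  unfold K0
  have := sqrt3_pos
  have := Real.pi_pos
  positivity

/-- pairs `(A, B)` and indices -/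
noncomputable def repEquiv (Λ : ℕ) : {i : Idx // Nf i = Λ} ≃ {q : ℕ × ℕ // q ∈ reps Λ} where
  toFun i := ⟨(i.1.1.1 - i.1.1.2, i.1.1.2), by
    obtain ⟨⟨⟨x, y⟩, h1, h2⟩, h3⟩ := i
    rw [mem_reps]
    simp only at h1 h2 h3 ⊢
    refine ⟨by omega, h1, ?_⟩
    unfold Nf at h3
    simp only at h3
    obtain ⟨A, rfl⟩ : ∃ A, x = A + y := ⟨x - y, by omega⟩
    rw [Nat.add_sub_cancel, ← h3]
    ring⟩
  invFun q := ⟨⟨(q.1.1 + q.1.2, q.1.2), by
    obtain ⟨⟨x, y⟩, h⟩ := q
    rw [mem_reps] at h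
    simp only
    exact ⟨h.2.1, by omega⟩⟩, by
    obtain ⟨⟨x, y⟩, h⟩ := q
    rw [mem_reps] at h
    unfold Nf
    simp only
    rw [← h.2.2]
    ring⟩
  left_inv i := by
    obtain ⟨⟨⟨x, y⟩, h1, h2⟩, h3⟩ := i
    simp only at h1 h2
    apply Subtype.ext
    apply Subtype.ext
    apply Prod.ext
    · show x - y + y = x
      omega
    · rfl
  right_inv q := by
    obtain ⟨⟨x, y⟩, h⟩ := q
    apply Subtype.ext
    apply Prod.ext
    · show x + y - y = x
      omega
    · rfl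

theorem tsum_reps (Λ : ℕ) (f : Idx → ℝ) (g : ℕ → ℕ → ℝ)
    (h : ∀ (i : Idx) (a b : ℕ), i.1.1 = a + b → i.1.2 = b → f i = g a b) :
    ∑' i : {i : Idx // Nf i = Λ}, f i.1 = ∑ q ∈ reps Λ, g q.1 q.2 := by
  rw [← Finset.tsum_subtype (reps Λ) (fun q => g q.1 q.2),
    ← (repEquiv Λ).tsum_eq (fun q : {q : ℕ × ℕ // q ∈ reps Λ} => g q.1.1 q.1.2)]
  refine tsum_congr fun i => ?_
  obtain ⟨⟨⟨x, y⟩, h1, h2⟩, h3⟩ := i
  refine h _ _ _ ?_ rfl
  show x = x - y + y
  simp only at h2
  omega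

/-- oscillation of the reversed chain functions -/
theorem osc_rev {x a b : ℕ → ℝ} {n : ℕ} (hx : ∀ j < n, x j < x (j + 1)) (h0 : x 0 = 0) {L : ℝ}
    (hn : x n = L) (hL : 0 < L) : Osc 1 (fun X => G x a b n (L - L * X)) := by
  obtain ⟨M, -, hM⟩ := abs_G_le hx (a := a) (b := b)
  have hm : Measurable fun X => G x a b n (L - L * X) := (measurable_G x a b n).comp (by fun_prop)
  have hi := bmi hm (fun X => hM _) (φ := fun _ => 1) continuous_const 0 1
  simp only [mul_one] at hi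
  obtain ⟨C, hC⟩ := osc_G hx (a := a) (b := b)
  refine ⟨hi, C, fun ω hω => ?_⟩
  have h := intervalIntegral.mul_integral_comp_sub_mul (a := (0 : ℝ)) (b := 1)
      (f := fun s => G x a b n s * Real.cos (ω / L * s + -ω)) L L
  rw [mul_one, mul_zero, sub_self, sub_zero] at h
  have e : ∫ t in (0 : ℝ)..1, G x a b n (L - L * t) * Real.cos (ω / L * (L - L * t) + -ω)
      = ∫ t in (0 : ℝ)..1, G x a b n (L - L * t) * Real.cos (ω * t) := by
    refine intervalIntegral.integral_congr fun t _ => ?_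
    show G x a b n (L - L * t) * _ = G x a b n (L - L * t) * _
    congr 1
    rw [← Real.cos_neg (ω * t)]
    congr 1
    field_simp
    ring
  rw [e] at h
  have h2 := hC (ω / L) (-ω) (by positivity)
  rw [h0, hn, ← h, abs_mul, abs_of_pos hL, div_div_eq_mul_div] at h2
  rw [le_div_iff₀ hω] at h2 ⊢
  have h3 : L * (|∫ t in (0 : ℝ)..1, G x a b n (L - L * t) * Real.cos (ω * t)| * ω) ≤ L * C := by
    linarith
  exact le_of_mul_le_mul_left h3 hL

theorem osc_fwd {x a b : ℕ → ℝ} {n : ℕ} (hx : ∀ j < n, x j < x (j + 1)) (h0 : x 0 = 0) {L : ℝ}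
    (hn : x n = L) : Osc L (G x a b n) := by
  obtain ⟨M, -, hM⟩ := abs_G_le hx (a := a) (b := b)
  have hm : Measurable (G x a b n) := measurable_G x a b n
  have hi := bmi hm (fun X => hM _) (φ := fun _ => 1) continuous_const 0 L
  simp only [mul_one] at hi
  obtain ⟨C, hC⟩ := osc_G hx (a := a) (b := b)
  refine ⟨hi, C, fun ω hω => ?_⟩
  have h2 := hC ω 0 hω
  rw [h0, hn] at h2
  simp only [add_zero] at h2
  exact h2

/-- contribution of one side to `LL` -/
theorem side_term {E : ℂ → ℝ} {φ : ℝ → ℝ} {P Q : ℂ} {u v A B : ℝ}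
    (h : ∀ t ∈ Set.Ioo (0 : ℝ) 1, E (P + (t : ℂ) * (Q - P)) = K0 * φ (u + t * (v - u))) :
    ∫ t in (0 : ℝ)..1, ((1 - t) * A + t * B) * E (P + (t : ℂ) * (Q - P))
      = K0 * ∫ t in (0 : ℝ)..1, ((1 - t) * A + t * B) * φ (u + t * (v - u)) := by
  rw [← intervalIntegral.integral_const_mul]
  refine integral_congr_Ioo' zero_le_one fun t ht => ?_
  rw [h t ht]
  ring

theorem half_int (A B : ℝ) : ∫ t in (0 : ℝ)..1, ((1 - t) * A + t * B) * 1 = (A + B) / 2 := by
  have hd : ∀ t ∈ Set.uIcc (0 : ℝ) 1, HasDerivAt (fun t => A * t + (B - A) * t ^ 2 / 2)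
      (((1 - t) * A + t * B) * 1) t := by
    intro t _
    have h1 := ((hasDerivAt_id t).const_mul A).add
      ((((hasDerivAt_id t).pow 2).const_mul (B - A)).div_const 2)
    refine h1.congr_deriv ?_
    simp
    ring
  rw [intervalIntegral.integral_eq_sub_of_hasDerivAt hd
    (Continuous.intervalIntegrable (by fun_prop) _ _)]
  ring

theorem measurable_FF {G1 G2 G3 : ℝ → ℝ} (m1 : Measurable G1) (m2 : Measurable G2)
    (m3 : Measurable G3) : Measurable (FF G1 G2 G3) := by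
  unfold FF
  refine ((m1.comp (by fun_prop)).const_mul _ |>.add (m2.comp (by fun_prop))).add ?_
  refine Measurable.ite (measurableSet_lt measurable_id measurable_const) ?_ ?_
  · exact (m2.comp (by fun_prop)).add (m3.comp (by fun_prop))
  · exact (m2.comp (by fun_prop)).add (m3.comp (by fun_prop))

theorem abs_FF_le {G1 G2 G3 : ℝ → ℝ} {M : ℝ} (b1 : ∀ x, |G1 x| ≤ M) (b2 : ∀ x, |G2 x| ≤ M)
    (b3 : ∀ x, |G3 x| ≤ M) (f : ℝ) : |FF G1 G2 G3 f| ≤ Real.sqrt 3 * M + M + (M + M) := by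
  unfold FF
  refine (abs_add_le _ _).trans (add_le_add ((abs_add_le _ _).trans (add_le_add ?_ (b2 _))) ?_)
  · rw [abs_mul, abs_of_pos sqrt3_pos]
    exact mul_le_mul_of_nonneg_left (b1 _) sqrt3_pos.le
  · split_ifs
    · exact (abs_add_le _ _).trans (add_le_add (b2 _) (b3 _))
    · exact (abs_add_le _ _).trans (add_le_add (b2 _) (b3 _))

theorem cont_D1 (a b : ℕ) : Continuous (D1 a b) := by unfold D1; fun_prop
theorem cont_D2 (a b : ℕ) : Continuous (D2 a b) := by unfold D2; fun_prop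
theorem cont_D3 (a b : ℕ) : Continuous (D3 a b) := by unfold D3; fun_prop

/-- the three chains as data -/
theorem bdry (he : ExplStatement) (hn : NtStatement) : BdryStatement := by
  intro N p a b hp hk ha0 hb0 hb1 hL hA hP
  obtain ⟨c1, c2, hc1, hc12, hc2, P1, P2, hB, hR, hH⟩ := chains hp
  have hs := sqrt3_pos
  have hss := sqrt3_sq
  have P0 : PP p 0 = 0 := by unfold PP; rw [ix_zero]; exact hp.2.2.2
  obtain ⟨n1, hn1⟩ : ∃ n1, c2 = c1 + n1 := ⟨c2 - c1, by omega⟩
  obtain ⟨n2, hn2⟩ : ∃ n2, N + 3 = c2 + n2 := ⟨N + 3 - c2, by omega⟩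
  have PN : PP p (N + 3) = 0 := by unfold PP; rw [ix_last]; exact hp.2.2.2
  obtain ⟨x3, hx3⟩ : ∃ x : ℕ → ℝ, ∀ k, x k = (PP p k).re := ⟨_, fun _ => rfl⟩
  obtain ⟨x1, hx1⟩ : ∃ x : ℕ → ℝ, ∀ k, x k = (PP p (c1 + k)).im := ⟨_, fun _ => rfl⟩
  obtain ⟨x2, hx2⟩ : ∃ x : ℕ → ℝ, ∀ k, x k = 2 * (1 - (PP p (c2 + k)).re) := ⟨_, fun _ => rfl⟩
  obtain ⟨a3, ha3⟩ : ∃ x : ℕ → ℝ, ∀ k, x k = a (ix N k) := ⟨_, fun _ => rfl⟩
  obtain ⟨a1, ha1⟩ : ∃ x : ℕ → ℝ, ∀ k, x k = a (ix N (c1 + k)) := ⟨_, fun _ => rfl⟩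
  obtain ⟨a2, ha2⟩ : ∃ x : ℕ → ℝ, ∀ k, x k = a (ix N (c2 + k)) := ⟨_, fun _ => rfl⟩
  obtain ⟨b3, hb3⟩ : ∃ x : ℕ → ℝ, ∀ k, x k = b (ix N k) := ⟨_, fun _ => rfl⟩
  obtain ⟨b1, hb1'⟩ : ∃ x : ℕ → ℝ, ∀ k, x k = b (ix N (c1 + k)) := ⟨_, fun _ => rfl⟩
  obtain ⟨b2, hb2⟩ : ∃ x : ℕ → ℝ, ∀ k, x k = b (ix N (c2 + k)) := ⟨_, fun _ => rfl⟩
  have m3 : ∀ j < c1, x3 j < x3 (j + 1) := by
    intro j hj
    rw [hx3, hx3]; exact (hB j hj).2.2
  have m1 : ∀ j < n1, x1 j < x1 (j + 1) := by
    intro j hj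
    rw [hx1, hx1]; exact (hR (c1 + j) (by omega) (by omega)).2.2
  have m2 : ∀ j < n2, x2 j < x2 (j + 1) := by
    intro j hj
    rw [hx2, hx2]
    have := (hH (c2 + j) (by omega) (by omega)).2.2
    rw [show c2 + (j + 1) = c2 + j + 1 by omega]
    linarith
  have h30 : x3 0 = 0 := by rw [hx3, P0, Complex.zero_re]
  have h3n : x3 c1 = 1 := by rw [hx3, P1, Complex.one_re]
  have h10 : x1 0 = 0 := by rw [hx1, Nat.add_zero, P1, Complex.one_im]
  have h1n : x1 n1 = Real.sqrt 3 := by rw [hx1, ← hn1, P2]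
  have h20 : x2 0 = 0 := by rw [hx2, Nat.add_zero, P2]; norm_num
  have h2n : x2 n2 = 2 := by rw [hx2, ← hn2, PN, Complex.zero_re]; norm_num
  -- lengths of the sides
  have slP : ∀ k, sl p (ix N k) = ‖PP p (k + 1) - PP p k‖ := by
    intro k
    unfold sl PP
    rw [ix_succ]
  have sl3 : ∀ k, k < c1 → sl p (ix N k) = x3 (k + 1) - x3 k := by
    intro k hk'
    obtain ⟨q1, q2, q3⟩ := hB k hk'
    rw [slP]
    have : PP p (k + 1) - PP p k = ((x3 (k + 1) - x3 k : ℝ) : ℂ) := by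
      apply Complex.ext
      · rw [Complex.ofReal_re, hx3, hx3, Complex.sub_re]
      · rw [Complex.ofReal_im, Complex.sub_im, q1, q2, sub_zero]
    rw [this, Complex.norm_real, Real.norm_eq_abs, abs_of_pos (by linarith [m3 k hk'])]
  have sl1 : ∀ k, k < n1 → sl p (ix N (c1 + k)) = x1 (k + 1) - x1 k := by
    intro k hk'
    obtain ⟨q1, q2, q3⟩ := hR (c1 + k) (by omega) (by omega)
    rw [slP]
    have : PP p (c1 + k + 1) - PP p (c1 + k) = ((x1 (k + 1) - x1 k : ℝ) : ℂ) * I := by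
      apply Complex.ext
      · rw [Complex.re_ofReal_mul, Complex.I_re, mul_zero, Complex.sub_re, q1, q2, sub_self]
      · rw [Complex.im_ofReal_mul, Complex.I_im, mul_one, Complex.sub_im, hx1, hx1]
        rfl
    rw [this, norm_mul, Complex.norm_I, mul_one, Complex.norm_real, Real.norm_eq_abs,
      abs_of_pos (by linarith [m1 k hk'])]
  have sl2 : ∀ k, k < n2 → sl p (ix N (c2 + k)) = x2 (k + 1) - x2 k := by
    intro k hk'
    obtain ⟨q1, q2, q3⟩ := hH (c2 + k) (by omega) (by omega)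
    rw [slP]
    have e : PP p (c2 + k + 1) - PP p (c2 + k) = ((x2 k - x2 (k + 1) : ℝ) : ℂ)
        * (⟨1 / 2, Real.sqrt 3 / 2⟩ : ℂ) := by
      rw [hx2, hx2, show c2 + (k + 1) = c2 + k + 1 by omega]
      apply Complex.ext
      · rw [Complex.re_ofReal_mul, Complex.sub_re]
        ring
      · rw [Complex.im_ofReal_mul, Complex.sub_im, q1, q2]
        ring
    have e2 : ‖(⟨1 / 2, Real.sqrt 3 / 2⟩ : ℂ)‖ = 1 := by
      have h : ‖(⟨1 / 2, Real.sqrt 3 / 2⟩ : ℂ)‖ ^ 2 = 1 := by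
        rw [← Complex.normSq_eq_norm_sq, Complex.normSq_mk]
        linarith
      have h0 := norm_nonneg (⟨1 / 2, Real.sqrt 3 / 2⟩ : ℂ)
      nlinarith
    rw [e, norm_mul, e2, mul_one, Complex.norm_real, Real.norm_eq_abs,
      abs_of_neg (by linarith [m2 k hk'])]
    ring
  -- kinks
  have hnot : ∀ k, k < N + 3 → k ≠ 0 → k ≠ c1 → k ≠ c2 → p (ix N k) ∉ Set.range crn := by
    intro k h1 h2 h3 h4 h5
    rw [mem_range_crn] at h5
    have h6 : PP p k = 0 ∨ PP p k = 1 ∨ PP p k = ⟨1, Real.sqrt 3⟩ := h5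
    rcases h6 with h | h | h
    · rw [← P0] at h
      exact h2 (PP_inj hp h1 (by omega) h)
    · rw [← P1] at h
      exact h3 (PP_inj hp h1 (by omega) h)
    · rw [← P2] at h
      exact h4 (PP_inj hp h1 (by omega) h)
  have g3 : ∀ j, 0 < j → j < c1 → b3 (j - 1) = a3 j ∧ 0 ≤ sm x3 a3 b3 (j - 1) - sm x3 a3 b3 j := by
    intro j h0 h1
    have hre : (PP p j).re < 1 := by
      rw [← hx3, ← h3n]; exact smono_chain m3 h1 le_rfl
    obtain ⟨q1, q2⟩ := hk (ix N j) (hnot j (by omega) (by omega) (by omega) (by omega))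
      (fun h => by have h' : (PP p j).re = 1 := h.1; linarith)
    rw [← ix_pred N h0, sl3 _ (by omega : j - 1 < c1), sl3 _ h1, ← ha3, ← ha3, ← hb3, ← hb3] at q2
    rw [← ix_pred N h0, ← hb3, ← ha3] at q1
    exact ⟨q1, q2⟩
  have g2 : ∀ j, 0 < j → j < n2 → b2 (j - 1) = a2 j ∧ 0 ≤ sm x2 a2 b2 (j - 1) - sm x2 a2 b2 j := by
    intro j h0 h1
    have hre : (PP p (c2 + j)).re < 1 := by
      have : x2 0 < x2 j := smono_chain m2 h0 h1.le
      rw [h20, hx2] at this
      linarith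
    obtain ⟨q1, q2⟩ := hk (ix N (c2 + j)) (hnot (c2 + j) (by omega) (by omega) (by omega) (by omega))
      (fun h => by have h' : (PP p (c2 + j)).re = 1 := h.1; linarith)
    have e : ix N (c2 + j) - 1 = ix N (c2 + (j - 1)) := by
      rw [← ix_pred N (by omega : 0 < c2 + j)]
      congr 1
      omega
    rw [e, sl2 _ (by omega : j - 1 < n2), sl2 _ h1, ← ha2, ← ha2, ← hb2, ← hb2] at q2
    rw [e, ← hb2, ← ha2] at q1
    exact ⟨q1, q2⟩
  have g1 : ∀ j, 0 < j → j < n1 → ¬ (3 / 4 * Real.sqrt 3 < x1 j ∧ x1 j < 7 / 8 * Real.sqrt 3) →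
      b1 (j - 1) = a1 j ∧ 0 ≤ sm x1 a1 b1 (j - 1) - sm x1 a1 b1 j := by
    intro j h0 h1 hM
    obtain ⟨q1, q2⟩ := hk (ix N (c1 + j)) (hnot (c1 + j) (by omega) (by omega) (by omega) (by omega))
      (fun h => by
        apply hM
        rw [hx1]
        exact ⟨h.2.1, h.2.2⟩)
    have e : ix N (c1 + j) - 1 = ix N (c1 + (j - 1)) := by
      rw [← ix_pred N (by omega : 0 < c1 + j)]
      congr 1
      omega
    rw [e, sl1 _ (by omega : j - 1 < n1), sl1 _ h1, ← ha1, ← ha1, ← hb1', ← hb1'] at q2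
    rw [e, ← hb1', ← ha1] at q1
    exact ⟨q1, q2⟩
  -- normalisation
  have e3 : a3 0 = 0 := by rw [ha3, ix_zero]; exact ha0
  have e3' : b3 (c1 - 1) = 0 := by
    rw [hb3, ix_pred N hc1]
    exact hb1 _ P1
  have e2 : b2 (n2 - 1) = 0 := by
    rw [hb2, show c2 + (n2 - 1) = N + 3 - 1 by omega, ix_pred N (by omega), ix_last]
    exact hb0
  have ep : a1 0 + (2 + Real.sqrt 3) * (b1 (n1 - 1) + a2 0) = 0 := by
    have h := hP (ix N c1) (ix N c2) P1 P2
    rw [← ix_pred N (by omega : 0 < c2)] at h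
    rw [ha1, ha2, hb1', Nat.add_zero, Nat.add_zero, show c1 + (n1 - 1) = c2 - 1 by omega]
    exact h
  -- splitting of sums
  have split : ∀ f : Fin (N + 3) → ℝ, ∑ j, f j = ∑ k ∈ Finset.range c1, f (ix N k)
      + ∑ k ∈ Finset.range n1, f (ix N (c1 + k)) + ∑ k ∈ Finset.range n2, f (ix N (c2 + k)) := by
    intro f
    rw [sum_ix, hn2, Finset.sum_range_add, hn1, Finset.sum_range_add]
  set G1 := G x1 a1 b1 n1 with hG1
  set G2 := G x2 a2 b2 n2 with hG2
  set G3 := G x3 a3 b3 c1 with hG3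
  -- area
  have hM0 : Real.sqrt 3 * (∫ X in (0 : ℝ)..1, G1 (Real.sqrt 3 - Real.sqrt 3 * X))
        + (∫ s in (0 : ℝ)..2, G2 s) + (∫ y in (0 : ℝ)..1, G3 (1 - y)) = 0 := by
    have r1 : Real.sqrt 3 * (∫ X in (0 : ℝ)..1, G1 (Real.sqrt 3 - Real.sqrt 3 * X))
        = ∑ k ∈ Finset.range n1, (x1 (k + 1) - x1 k) * ((a1 k + b1 k) / 2) := by
      have h := intervalIntegral.mul_integral_comp_sub_mul (a := (0 : ℝ)) (b := 1)
        (f := G1) (Real.sqrt 3) (Real.sqrt 3)
      rw [mul_one, mul_zero, sub_self, sub_zero] at h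
      rw [h]
      have h2 := int_G m1 (a := a1) (b := b1) (φ := fun _ => 1) continuous_const
      simp only [half_int] at h2
      rw [h10, h1n] at h2
      simp only [mul_one] at h2
      exact h2
    have r2 : ∫ s in (0 : ℝ)..2, G2 s
        = ∑ k ∈ Finset.range n2, (x2 (k + 1) - x2 k) * ((a2 k + b2 k) / 2) := by
      have h2 := int_G m2 (a := a2) (b := b2) (φ := fun _ => 1) continuous_const
      simp only [half_int] at h2
      rw [h20, h2n] at h2
      simp only [mul_one] at h2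
      exact h2
    have r3 : ∫ y in (0 : ℝ)..1, G3 (1 - y)
        = ∑ k ∈ Finset.range c1, (x3 (k + 1) - x3 k) * ((a3 k + b3 k) / 2) := by
      have h := intervalIntegral.integral_comp_sub_left (a := (0 : ℝ)) (b := 1) G3 1
      rw [sub_self, sub_zero] at h
      rw [h]
      have h2 := int_G m3 (a := a3) (b := b3) (φ := fun _ => 1) continuous_const
      simp only [half_int] at h2
      rw [h30, h3n] at h2
      simp only [mul_one] at h2
      exact h2
    rw [split] at hA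
    have q3 : ∑ k ∈ Finset.range c1, sl p (ix N k) * (a (ix N k) + b (ix N k))
        = 2 * ∑ k ∈ Finset.range c1, (x3 (k + 1) - x3 k) * ((a3 k + b3 k) / 2) := by
      rw [Finset.mul_sum]
      refine Finset.sum_congr rfl fun k hk' => ?_
      rw [sl3 k (Finset.mem_range.mp hk'), ha3, hb3]; ring
    have q1 : ∑ k ∈ Finset.range n1, sl p (ix N (c1 + k)) * (a (ix N (c1 + k)) + b (ix N (c1 + k)))
        = 2 * ∑ k ∈ Finset.range n1, (x1 (k + 1) - x1 k) * ((a1 k + b1 k) / 2) := by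
      rw [Finset.mul_sum]
      refine Finset.sum_congr rfl fun k hk' => ?_
      rw [sl1 k (Finset.mem_range.mp hk'), ha1, hb1']; ring
    have q2 : ∑ k ∈ Finset.range n2, sl p (ix N (c2 + k)) * (a (ix N (c2 + k)) + b (ix N (c2 + k)))
        = 2 * ∑ k ∈ Finset.range n2, (x2 (k + 1) - x2 k) * ((a2 k + b2 k) / 2) := by
      rw [Finset.mul_sum]
      refine Finset.sum_congr rfl fun k hk' => ?_
      rw [sl2 k (Finset.mem_range.mp hk'), ha2, hb2]; ring
    rw [q1, q2, q3] at hA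
    rw [r1, r2, r3]
    linarith
  -- the functional
  have hLL : ∀ (i : Idx) (A B : ℕ), i.1.1 = A + B → i.1.2 = B →
      LL p a b i = K0 * QQ (fun X => G1 (Real.sqrt 3 - Real.sqrt 3 * X)) G2 (fun y => G3 (1 - y))
        A B := by
    intro i A B hiA hiB
    obtain ⟨he1, he2, he3⟩ := he i A B hiA hiB
    unfold LL
    rw [split]
    have t3 : ∑ k ∈ Finset.range c1, sl p (ix N k) * ∫ t in (0 : ℝ)..1,
        ((1 - t) * a (ix N k) + t * b (ix N k))
          * EE i (p (ix N k) + (t : ℂ) * (p (ix N k + 1) - p (ix N k)))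
        = K0 * ∫ y in (0 : ℝ)..1, G3 (1 - y) * D3 A B y ^ 2 := by
      have h := intervalIntegral.integral_comp_sub_left (a := (0 : ℝ)) (b := 1)
        (fun t => G3 t * D3 A B (1 - t) ^ 2) 1
      simp only [sub_sub_cancel] at h
      rw [sub_self, sub_zero] at h
      have hφ : Continuous fun t => D3 A B (1 - t) ^ 2 :=
        ((cont_D3 A B).comp (by fun_prop)).pow 2
      have h2 := int_G m3 (a := a3) (b := b3) hφ
      rw [h30, h3n] at h2
      rw [h, h2, Finset.mul_sum]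
      refine Finset.sum_congr rfl fun k hk' => ?_
      have hk3 := Finset.mem_range.mp hk'
      obtain ⟨q1, q2, q3⟩ := hB k hk3
      rw [sl3 k hk3, ha3, hb3, ← ix_succ]
      have h3 := side_term (E := EE i) (φ := fun t => D3 A B (1 - t) ^ 2) (P := p (ix N k))
        (Q := p (ix N (k + 1))) (u := x3 k) (v := x3 (k + 1)) (A := a (ix N k)) (B := b (ix N k)) (by
          intro t ht
          have u1 : 0 ≤ x3 k := by rw [← h30]; exact mono_chain m3 (Nat.zero_le _) hk3.le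
          have u2 : x3 (k + 1) ≤ 1 := by rw [← h3n]; exact mono_chain m3 hk3 le_rfl
          have u3 := m3 k hk3
          have u4 : 0 < t * (x3 (k + 1) - x3 k) := mul_pos ht.1 (by linarith)
          have u5 : t * (x3 (k + 1) - x3 k) < x3 (k + 1) - x3 k := by
            have := mul_lt_mul_of_pos_right ht.2 (by linarith : 0 < x3 (k + 1) - x3 k)
            linarith
          have h4 := he3 (1 - (x3 k + t * (x3 (k + 1) - x3 k))) ⟨by linarith, by linarith⟩
          have h5 : p (ix N k) + (t : ℂ) * (p (ix N (k + 1)) - p (ix N k))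
              = ⟨1 - (1 - (x3 k + t * (x3 (k + 1) - x3 k))), 0⟩ := by
            show PP p k + (t : ℂ) * (PP p (k + 1) - PP p k) = _
            apply Complex.ext
            · rw [Complex.add_re, Complex.re_ofReal_mul, Complex.sub_re, hx3, hx3]
              ring
            · rw [Complex.add_im, Complex.im_ofReal_mul, Complex.sub_im, q1, q2]
              simp
          rw [h5, h4]
          rfl)
      rw [h3]
      ring
    have t1 : ∑ k ∈ Finset.range n1, sl p (ix N (c1 + k)) * ∫ t in (0 : ℝ)..1,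
        ((1 - t) * a (ix N (c1 + k)) + t * b (ix N (c1 + k)))
          * EE i (p (ix N (c1 + k)) + (t : ℂ) * (p (ix N (c1 + k) + 1) - p (ix N (c1 + k))))
        = K0 * (Real.sqrt 3 * (∫ X in (0 : ℝ)..1, G1 (Real.sqrt 3 - Real.sqrt 3 * X)
          * D1 A B X ^ 2) / 3) := by
      have h := intervalIntegral.mul_integral_comp_sub_mul (a := (0 : ℝ)) (b := 1)
        (f := fun t => G1 t * (D1 A B (1 - t / Real.sqrt 3) ^ 2 / 3)) (Real.sqrt 3) (Real.sqrt 3)
      rw [mul_one, mul_zero, sub_self, sub_zero] at h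
      have e : ∫ X in (0 : ℝ)..1, G1 (Real.sqrt 3 - Real.sqrt 3 * X)
          * (D1 A B (1 - (Real.sqrt 3 - Real.sqrt 3 * X) / Real.sqrt 3) ^ 2 / 3)
          = (∫ X in (0 : ℝ)..1, G1 (Real.sqrt 3 - Real.sqrt 3 * X) * D1 A B X ^ 2) / 3 := by
        rw [← intervalIntegral.integral_div]
        refine intervalIntegral.integral_congr fun X _ => ?_
        show G1 (Real.sqrt 3 - Real.sqrt 3 * X)
          * (D1 A B (1 - (Real.sqrt 3 - Real.sqrt 3 * X) / Real.sqrt 3) ^ 2 / 3)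
          = G1 (Real.sqrt 3 - Real.sqrt 3 * X) * D1 A B X ^ 2 / 3
        rw [show 1 - (Real.sqrt 3 - Real.sqrt 3 * X) / Real.sqrt 3 = X by field_simp; ring]
        ring
      rw [e] at h
      have hφ : Continuous fun t => D1 A B (1 - t / Real.sqrt 3) ^ 2 / 3 :=
        (((cont_D1 A B).comp (by fun_prop)).pow 2).div_const 3
      have h2 := int_G m1 (a := a1) (b := b1) hφ
      rw [h10, h1n] at h2
      have h' : Real.sqrt 3 * (∫ X in (0 : ℝ)..1, G1 (Real.sqrt 3 - Real.sqrt 3 * X)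
          * D1 A B X ^ 2) / 3 = ∫ t in (0 : ℝ)..Real.sqrt 3,
            G1 t * (D1 A B (1 - t / Real.sqrt 3) ^ 2 / 3) := by
        rw [← h]; ring
      rw [h', h2, Finset.mul_sum]
      refine Finset.sum_congr rfl fun k hk' => ?_
      have hk3 := Finset.mem_range.mp hk'
      obtain ⟨q1, q2, q3⟩ := hR (c1 + k) (by omega) (by omega)
      rw [sl1 k hk3, ha1, hb1', ← ix_succ]
      have h3 := side_term (E := EE i) (φ := fun t => D1 A B (1 - t / Real.sqrt 3) ^ 2 / 3)
        (P := p (ix N (c1 + k)))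
        (Q := p (ix N (c1 + k + 1))) (u := x1 k) (v := x1 (k + 1)) (A := a (ix N (c1 + k)))
        (B := b (ix N (c1 + k))) (by
          intro t ht
          have u1 : 0 ≤ x1 k := by rw [← h10]; exact mono_chain m1 (Nat.zero_le _) hk3.le
          have u2 : x1 (k + 1) ≤ Real.sqrt 3 := by rw [← h1n]; exact mono_chain m1 hk3 le_rfl
          have u3 := m1 k hk3
          have u4 : 0 < t * (x1 (k + 1) - x1 k) := mul_pos ht.1 (by linarith)
          have u5 : t * (x1 (k + 1) - x1 k) < x1 (k + 1) - x1 k := by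
            have := mul_lt_mul_of_pos_right ht.2 (by linarith : 0 < x1 (k + 1) - x1 k)
            linarith
          have u6 : 0 < (x1 k + t * (x1 (k + 1) - x1 k)) / Real.sqrt 3 := by
            apply div_pos _ hs
            linarith
          have u7 : (x1 k + t * (x1 (k + 1) - x1 k)) / Real.sqrt 3 < 1 := by
            rw [div_lt_one hs]
            linarith
          have h4 := he1 (1 - (x1 k + t * (x1 (k + 1) - x1 k)) / Real.sqrt 3)
            ⟨by linarith, by linarith⟩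
          have h5 : p (ix N (c1 + k)) + (t : ℂ) * (p (ix N (c1 + k + 1)) - p (ix N (c1 + k)))
              = ⟨1, Real.sqrt 3 * (1 - (1 - (x1 k + t * (x1 (k + 1) - x1 k)) / Real.sqrt 3))⟩ := by
            show PP p (c1 + k) + (t : ℂ) * (PP p (c1 + k + 1) - PP p (c1 + k)) = _
            apply Complex.ext
            · rw [Complex.add_re, Complex.re_ofReal_mul, Complex.sub_re, q1, q2]
              simp
            · rw [Complex.add_im, Complex.im_ofReal_mul, Complex.sub_im]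
              show _ = Real.sqrt 3 * (1 - (1 - (x1 k + t * (x1 (k + 1) - x1 k)) / Real.sqrt 3))
              rw [hx1, hx1, show c1 + (k + 1) = c1 + k + 1 by omega]
              field_simp
              ring
          rw [h5, h4]
          rfl)
      rw [h3]
      ring
    have t2 : ∑ k ∈ Finset.range n2, sl p (ix N (c2 + k)) * ∫ t in (0 : ℝ)..1,
        ((1 - t) * a (ix N (c2 + k)) + t * b (ix N (c2 + k)))
          * EE i (p (ix N (c2 + k)) + (t : ℂ) * (p (ix N (c2 + k) + 1) - p (ix N (c2 + k))))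
        = K0 * ∫ s in (0 : ℝ)..2, G2 s * D2 A B s ^ 2 := by
      have hφ : Continuous fun t => D2 A B t ^ 2 := (cont_D2 A B).pow 2
      have h2 := int_G m2 (a := a2) (b := b2) hφ
      rw [h20, h2n] at h2
      rw [h2, Finset.mul_sum]
      refine Finset.sum_congr rfl fun k hk' => ?_
      have hk3 := Finset.mem_range.mp hk'
      obtain ⟨q1, q2, q3⟩ := hH (c2 + k) (by omega) (by omega)
      rw [sl2 k hk3, ha2, hb2, ← ix_succ]
      have h3 := side_term (E := EE i) (φ := fun t => D2 A B t ^ 2)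
        (P := p (ix N (c2 + k)))
        (Q := p (ix N (c2 + k + 1))) (u := x2 k) (v := x2 (k + 1)) (A := a (ix N (c2 + k)))
        (B := b (ix N (c2 + k))) (by
          intro t ht
          have u1 : 0 ≤ x2 k := by rw [← h20]; exact mono_chain m2 (Nat.zero_le _) hk3.le
          have u2 : x2 (k + 1) ≤ 2 := by rw [← h2n]; exact mono_chain m2 hk3 le_rfl
          have u3 := m2 k hk3
          have u4 : 0 < t * (x2 (k + 1) - x2 k) := mul_pos ht.1 (by linarith)
          have u5 : t * (x2 (k + 1) - x2 k) < x2 (k + 1) - x2 k := by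
            have := mul_lt_mul_of_pos_right ht.2 (by linarith : 0 < x2 (k + 1) - x2 k)
            linarith
          have h4 := he2 (x2 k + t * (x2 (k + 1) - x2 k)) ⟨by linarith, by linarith⟩
          have h5 : p (ix N (c2 + k)) + (t : ℂ) * (p (ix N (c2 + k + 1)) - p (ix N (c2 + k)))
              = ⟨1 - (x2 k + t * (x2 (k + 1) - x2 k)) / 2,
                Real.sqrt 3 * (1 - (x2 k + t * (x2 (k + 1) - x2 k)) / 2)⟩ := by
            show PP p (c2 + k) + (t : ℂ) * (PP p (c2 + k + 1) - PP p (c2 + k)) = _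
            rw [hx2, hx2, show c2 + (k + 1) = c2 + k + 1 by omega]
            apply Complex.ext
            · rw [Complex.add_re, Complex.re_ofReal_mul, Complex.sub_re]
              ring
            · rw [Complex.add_im, Complex.im_ofReal_mul, Complex.sub_im, q1, q2]
              ring
          rw [h5, h4]
          rfl)
      rw [h3]
      ring
    rw [t3, t1, t2]
    unfold QQ
    ring
  have hQ : ∀ Λ : ℕ, ∑ q ∈ reps Λ, QQ (fun X => G1 (Real.sqrt 3 - Real.sqrt 3 * X)) G2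
      (fun y => G3 (1 - y)) q.1 q.2 = 0 := by
    intro Λ
    have h := hL Λ
    rw [tsum_reps Λ (fun i => LL p a b i) _ hLL, ← Finset.mul_sum] at h
    rcases mul_eq_zero.mp h with h | h
    · exact absurd h K0_pos.ne'
    · exact h
  -- oscillation
  have o1 : Osc 1 (fun X => G1 (Real.sqrt 3 - Real.sqrt 3 * X)) := osc_rev m1 h10 h1n hs
  have o2 : Osc 2 G2 := osc_fwd m2 h20 h2n
  have o3 : Osc 1 (fun y => G3 (1 - y)) := by
    have := osc_rev m3 h30 h3n one_pos (a := a3) (b := b3)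
    simp only [one_mul] at this
    exact this
  obtain ⟨M1, -, hM1⟩ := abs_G_le m1 (a := a1) (b := b1)
  obtain ⟨M2, -, hM2⟩ := abs_G_le m2 (a := a2) (b := b2)
  obtain ⟨M3, -, hM3⟩ := abs_G_le m3 (a := a3) (b := b3)
  set M := max M1 (max M2 M3) with hMdef
  have B1 : ∀ x, |G1 x| ≤ M := fun x => (hM1 x).trans (le_max_left _ _)
  have B2 : ∀ x, |G2 x| ≤ M := fun x => (hM2 x).trans ((le_max_left _ _).trans (le_max_right _ _))
  have B3 : ∀ x, |G3 x| ≤ M := fun x => (hM3 x).trans ((le_max_right _ _).trans (le_max_right _ _))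
  have ms1 : Measurable G1 := measurable_G _ _ _ _
  have ms2 : Measurable G2 := measurable_G _ _ _ _
  have ms3 : Measurable G3 := measurable_G _ _ _ _
  have hF0 : ∀ a : ℕ, ∫ f in (0 : ℝ)..1, FF G1 G2 G3 f * Real.cos (Real.pi * a * f) = 0 := by
    intro m
    rw [transform ms1 ms2 ms3 B1 B2 B3 m]
    rcases Nat.eq_zero_or_pos m with h | h
    · rw [h, ← hM0]
      unfold Fhat
      have e : (2 / 3 + 1 / 3 : ℝ) = 1 := by norm_num
      simp only [Nat.cast_zero, mul_zero, zero_mul, zero_div, Real.cos_zero, pow_zero, e, mul_one]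
    · exact fhat_zero hn o1 o2 o3 hM0 hQ m h
  have hFF := cos_complete (measurable_FF ms1 ms2 ms3) (abs_FF_le B1 B2 B3) hF0
  obtain ⟨z1, z2, z3⟩ := kinks m1 h10 h1n m2 h20 h2n m3 h30 h3n g1 g2 g3 e3 e3' e2 ep hFF
  have final : ∀ j : Fin (N + 3), a j = 0 ∧ b j = 0 := by
    intro j
    have hj := j.2
    rw [← ix_self N j]
    rcases Nat.lt_or_ge j.val c1 with h | h
    · have := z3 j.val h
      rwa [ha3, hb3] at this
    · rcases Nat.lt_or_ge j.val c2 with h' | h'
      · obtain ⟨d, hd⟩ : ∃ d, j.val = c1 + d := ⟨j.val - c1, by omega⟩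
        rw [hd]
        have := z1 d (by omega)
        rwa [ha1, hb1'] at this
      · obtain ⟨d, hd⟩ : ∃ d, j.val = c2 + d := ⟨j.val - c2, by omega⟩
        rw [hd]
        have := z2 d (by omega)
        rwa [ha2, hb2] at this
  exact ⟨funext fun j => (final j).1, funext fun j => (final j).2⟩

end Pool.Agent.H5O.H32
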