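import Mathlib

/-!
Piecewise affine functions given by chains of nodes.
-/

namespace Pool.Agent.H5O.H32

open MeasureTheory Filter Topology

/-- affine interpolation on one interval -/
noncomputable def pc (u v A B t : ℝ) : ℝ :=
  (Set.Ioo u v).indicator (fun t => A + (B - A) / (v - u) * (t - u)) t

/-- piecewise affine function of a chain -/
noncomputable def G (x a b : ℕ → ℝ) (n : ℕ) (t : ℝ) : ℝ :=
  ∑ j ∈ Finset.range n, pc (x j) (x (j + 1)) (a j) (b j) t

theorem measurable_pc (u v A B : ℝ) : Measurable (pc u v A B) := by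
  unfold pc
  exact Measurable.indicator (by fun_prop) measurableSet_Ioo

theorem measurable_G (x a b : ℕ → ℝ) (n : ℕ) : Measurable (G x a b n) := by
  unfold G
  exact Finset.measurable_sum _ fun j _ => measurable_pc _ _ _ _

theorem abs_pc_le {u v A B : ℝ} (huv : u < v) (t : ℝ) : |pc u v A B t| ≤ |A| + |B - A| := by
  unfold pc
  by_cases ht : t ∈ Set.Ioo u v
  · rw [Set.indicator_of_mem ht]
    have hv : 0 < v - u := by linarith
    refine (abs_add_le _ _).trans ?_
    have h1 : |(B - A) / (v - u) * (t - u)| ≤ |B - A| := by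
      rw [abs_mul, abs_div, abs_of_pos hv, abs_of_pos (by linarith [ht.1] : 0 < t - u)]
      rw [div_mul_eq_mul_div, div_le_iff₀ hv]
      exact mul_le_mul_of_nonneg_left (by linarith [ht.2]) (abs_nonneg _)
    linarith
  · rw [Set.indicator_of_notMem ht, abs_zero]
    positivity

theorem abs_G_le {x a b : ℕ → ℝ} {n : ℕ} (hx : ∀ j < n, x j < x (j + 1)) :
    ∃ M : ℝ, 0 ≤ M ∧ ∀ t, |G x a b n t| ≤ M := by
  refine ⟨∑ j ∈ Finset.range n, (|a j| + |b j - a j|), by positivity, fun t => ?_⟩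
  unfold G
  refine (Finset.abs_sum_le_sum_abs _ _).trans (Finset.sum_le_sum fun j hj => ?_)
  exact abs_pc_le (hx j (Finset.mem_range.mp hj)) t

theorem int_pc {c d u v A B : ℝ} (hc : c ≤ u) (huv : u < v) (hd : v ≤ d) (φ : ℝ → ℝ) :
    ∫ t in c..d, pc u v A B t * φ t
      = (v - u) * ∫ s in (0 : ℝ)..1, ((1 - s) * A + s * B) * φ (u + s * (v - u)) := by
  have hv : 0 < v - u := by linarith
  have h1 : ∫ t in c..d, pc u v A B t * φ t
      = ∫ t in u..v, (A + (B - A) / (v - u) * (t - u)) * φ t := by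
    rw [intervalIntegral.integral_of_le (by linarith), intervalIntegral.integral_of_le huv.le]
    have e : ∀ t, pc u v A B t * φ t
        = (Set.Ioo u v).indicator (fun t => (A + (B - A) / (v - u) * (t - u)) * φ t) t := by
      intro t
      unfold pc
      by_cases ht : t ∈ Set.Ioo u v
      · rw [Set.indicator_of_mem ht, Set.indicator_of_mem ht]
      · rw [Set.indicator_of_notMem ht, Set.indicator_of_notMem ht, zero_mul]
    simp only [e]
    rw [setIntegral_indicator measurableSet_Ioo]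
    have e2 : Set.Ioc c d ∩ Set.Ioo u v = Set.Ioo u v := by
      refine Set.inter_eq_right.mpr fun t ht => ⟨by linarith [ht.1], by linarith [ht.2]⟩
    rw [e2, ← integral_Ioc_eq_integral_Ioo]
  rw [h1]
  have h2 := intervalIntegral.mul_integral_comp_mul_add (a := (0 : ℝ)) (b := 1)
    (f := fun t => (A + (B - A) / (v - u) * (t - u)) * φ t) (v - u) u
  rw [mul_zero, zero_add, mul_one, sub_add_cancel] at h2
  rw [← h2]
  congr 1
  refine intervalIntegral.integral_congr fun s _ => ?_
  show (A + (B - A) / (v - u) * ((v - u) * s + u - u)) * φ ((v - u) * s + u)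
    = ((1 - s) * A + s * B) * φ (u + s * (v - u))
  rw [show (v - u) * s + u = u + s * (v - u) by ring]
  congr 1
  field_simp
  ring

theorem intervalIntegrable_pc (c d u v A B : ℝ) (huv : u < v) {φ : ℝ → ℝ} (hφ : Continuous φ) :
    IntervalIntegrable (fun t => pc u v A B t * φ t) volume c d := by
  have h1 : IntervalIntegrable (pc u v A B) volume c d := by
    rw [intervalIntegrable_iff]
    exact Measure.integrableOn_of_bounded (M := |A| + |B - A|) (by simp [Set.uIoc])
        (measurable_pc _ _ _ _).aestronglyMeasurable (ae_of_all _ fun t => by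
          rw [Real.norm_eq_abs]; exact abs_pc_le huv t)
  exact h1.mul_continuousOn hφ.continuousOn

theorem mono_chain {x : ℕ → ℝ} {n : ℕ} (hx : ∀ j < n, x j < x (j + 1)) {i j : ℕ} (hij : i ≤ j)
    (hj : j ≤ n) : x i ≤ x j := by
  induction j with
  | zero => simp at hij; subst hij; exact le_rfl
  | succ k ih =>
    rcases Nat.lt_or_ge i (k + 1) with h | h
    · exact (ih (by omega) (by omega)).trans (hx k (by omega)).le
    · have : i = k + 1 := by omega
      rw [this]

theorem smono_chain {x : ℕ → ℝ} {n : ℕ} (hx : ∀ j < n, x j < x (j + 1)) {i j : ℕ} (hij : i < j)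
    (hj : j ≤ n) : x i < x j :=
  lt_of_lt_of_le (hx i (by omega)) (mono_chain hx (by omega) hj)

theorem int_G {x a b : ℕ → ℝ} {n : ℕ} (hx : ∀ j < n, x j < x (j + 1)) {φ : ℝ → ℝ}
    (hφ : Continuous φ) :
    ∫ t in (x 0)..(x n), G x a b n t * φ t = ∑ j ∈ Finset.range n, (x (j + 1) - x j)
      * ∫ s in (0 : ℝ)..1, ((1 - s) * a j + s * b j) * φ (x j + s * (x (j + 1) - x j)) := by
  unfold G
  simp only [Finset.sum_mul]
  rw [intervalIntegral.integral_finsetSum fun j hj =>
    intervalIntegrable_pc _ _ _ _ _ _ (hx j (Finset.mem_range.mp hj)) hφ]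
  refine Finset.sum_congr rfl fun j hj => ?_
  have hj' := Finset.mem_range.mp hj
  exact int_pc (mono_chain hx (by omega) (by omega)) (hx j hj') (mono_chain hx (by omega) le_rfl) φ

/-- one affine piece against a cosine -/
theorem osc_piece (α β u v ω θ : ℝ) (hω : 0 < ω) :
    |∫ t in u..v, (α + β * t) * Real.cos (ω * t + θ)|
      ≤ (|α + β * v| + |α + β * u| + |β| * |v - u|) / ω := by
  have hd : ∀ t ∈ Set.uIcc u v, HasDerivAt (fun t => (α + β * t) * Real.sin (ω * t + θ) / ω
      + β * Real.cos (ω * t + θ) / ω ^ 2) ((α + β * t) * Real.cos (ω * t + θ)) t := by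
    intro t _
    have h1 : HasDerivAt (fun t : ℝ => ω * t + θ) ω t := by
      simpa using ((hasDerivAt_id t).const_mul ω).add_const θ
    have h2 : HasDerivAt (fun t : ℝ => α + β * t) β t := by
      simpa using ((hasDerivAt_id t).const_mul β).const_add α
    have h3 := (h2.mul h1.sin).div_const ω
    have h4 := (h1.cos.const_mul β).div_const (ω ^ 2)
    refine (h3.add h4).congr_deriv ?_
    field_simp
    ring
  rw [intervalIntegral.integral_eq_sub_of_hasDerivAt hd
    (Continuous.intervalIntegrable (by fun_prop) _ _)]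
  have e : (α + β * v) * Real.sin (ω * v + θ) / ω + β * Real.cos (ω * v + θ) / ω ^ 2
      - ((α + β * u) * Real.sin (ω * u + θ) / ω + β * Real.cos (ω * u + θ) / ω ^ 2)
      = ((α + β * v) * Real.sin (ω * v + θ) + -((α + β * u) * Real.sin (ω * u + θ))
        + β * (Real.cos (ω * v + θ) - Real.cos (ω * u + θ)) / ω) / ω := by
    field_simp
    ring
  rw [e, abs_div, abs_of_pos hω]
  refine div_le_div_of_nonneg_right ?_ hω.le
  refine (abs_add_three _ _ _).trans ?_
  have h1 : |(α + β * v) * Real.sin (ω * v + θ)| ≤ |α + β * v| := by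
    rw [abs_mul]
    exact mul_le_of_le_one_right (abs_nonneg _) (Real.abs_sin_le_one _)
  have h2 : |-((α + β * u) * Real.sin (ω * u + θ))| ≤ |α + β * u| := by
    rw [abs_neg, abs_mul]
    exact mul_le_of_le_one_right (abs_nonneg _) (Real.abs_sin_le_one _)
  have h3 : |β * (Real.cos (ω * v + θ) - Real.cos (ω * u + θ)) / ω| ≤ |β| * |v - u| := by
    rw [abs_div, abs_mul, abs_of_pos hω, div_le_iff₀ hω, mul_assoc]
    refine mul_le_mul_of_nonneg_left ?_ (abs_nonneg _)
    have := Real.abs_cos_sub_cos_le (ω * v + θ) (ω * u + θ)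
    refine this.trans (le_of_eq ?_)
    rw [show ω * v + θ - (ω * u + θ) = (v - u) * ω by ring, abs_mul, abs_of_pos hω]
  linarith

theorem osc_G {x a b : ℕ → ℝ} {n : ℕ} (hx : ∀ j < n, x j < x (j + 1)) :
    ∃ C : ℝ, ∀ ω θ : ℝ, 0 < ω →
      |∫ t in (x 0)..(x n), G x a b n t * Real.cos (ω * t + θ)| ≤ C / ω := by
  refine ⟨∑ j ∈ Finset.range n, (|b j| + |a j| + |b j - a j|), fun ω θ hω => ?_⟩
  unfold G
  simp only [Finset.sum_mul]
  rw [intervalIntegral.integral_finsetSum fun j hj =>
    intervalIntegrable_pc _ _ _ _ _ _ (hx j (Finset.mem_range.mp hj)) (by fun_prop),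
    Finset.sum_div]
  refine (Finset.abs_sum_le_sum_abs _ _).trans (Finset.sum_le_sum fun j hj => ?_)
  have hj' := Finset.mem_range.mp hj
  have hv : 0 < x (j + 1) - x j := by linarith [hx j hj']
  rw [int_pc (mono_chain hx (by omega) (by omega)) (hx j hj') (mono_chain hx (by omega) le_rfl)]
  have h := osc_piece (a j) (b j - a j) 0 1 (ω * (x (j + 1) - x j)) (ω * x j + θ)
    (by positivity)
  have e : ∫ s in (0 : ℝ)..1, ((1 - s) * a j + s * b j)
      * Real.cos (ω * (x j + s * (x (j + 1) - x j)) + θ)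
      = ∫ t in (0 : ℝ)..1, (a j + (b j - a j) * t)
        * Real.cos (ω * (x (j + 1) - x j) * t + (ω * x j + θ)) := by
    refine intervalIntegral.integral_congr fun s _ => ?_
    show ((1 - s) * a j + s * b j) * Real.cos (ω * (x j + s * (x (j + 1) - x j)) + θ)
      = (a j + (b j - a j) * s) * Real.cos (ω * (x (j + 1) - x j) * s + (ω * x j + θ))
    congr 1
    · ring
    · congr 1; ring
  rw [e, abs_mul, abs_of_pos hv]
  refine (mul_le_mul_of_nonneg_left h hv.le).trans (le_of_eq ?_)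
  simp only [mul_one, mul_zero, add_zero, sub_zero, abs_one, add_sub_cancel]
  field_simp

/-! ### Local data -/

/-- one sided affine germs -/
def LD (F : ℝ → ℝ) (x A B A' B' : ℝ) : Prop :=
  (∀ᶠ y in 𝓝[<] x, F y = A + B * (y - x)) ∧ ∀ᶠ y in 𝓝[>] x, F y = A' + B' * (y - x)

theorem LD.add {F H : ℝ → ℝ} {x A B A' B' C D C' D' : ℝ} (h : LD F x A B A' B')
    (k : LD H x C D C' D') : LD (fun y => F y + H y) x (A + C) (B + D) (A' + C') (B' + D') := by
  refine ⟨?_, ?_⟩
  · filter_upwards [h.1, k.1] with y h1 h2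
    rw [h1, h2]; ring
  · filter_upwards [h.2, k.2] with y h1 h2
    rw [h1, h2]; ring

theorem LD.const_mul {F : ℝ → ℝ} {x A B A' B' : ℝ} (h : LD F x A B A' B') (c : ℝ) :
    LD (fun y => c * F y) x (c * A) (c * B) (c * A') (c * B') := by
  refine ⟨?_, ?_⟩
  · filter_upwards [h.1] with y h1
    rw [h1]; ring
  · filter_upwards [h.2] with y h1
    rw [h1]; ring

theorem LD.comp_mul {F : ℝ → ℝ} {x A B A' B' : ℝ} {c d : ℝ} (hc : 0 < c)
    (h : LD F (c * x + d) A B A' B') :
    LD (fun y => F (c * y + d)) x A (c * B) A' (c * B') := by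
  have t1 : Tendsto (fun y : ℝ => c * y + d) (𝓝[<] x) (𝓝[<] (c * x + d)) := by
    refine tendsto_nhdsWithin_iff.mpr ⟨?_, ?_⟩
    · exact ((continuous_const.mul continuous_id).add continuous_const).continuousAt.mono_left
        nhdsWithin_le_nhds
    · filter_upwards [self_mem_nhdsWithin] with y hy
      have : y < x := hy
      show c * y + d < c * x + d
      nlinarith
  have t2 : Tendsto (fun y : ℝ => c * y + d) (𝓝[>] x) (𝓝[>] (c * x + d)) := by
    refine tendsto_nhdsWithin_iff.mpr ⟨?_, ?_⟩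
    · exact ((continuous_const.mul continuous_id).add continuous_const).continuousAt.mono_left
        nhdsWithin_le_nhds
    · filter_upwards [self_mem_nhdsWithin] with y hy
      have : x < y := hy
      show c * x + d < c * y + d
      nlinarith
  refine ⟨?_, ?_⟩
  · filter_upwards [t1.eventually h.1] with y h1
    rw [h1]; ring
  · filter_upwards [t2.eventually h.2] with y h1
    rw [h1]; ring

theorem LD.comp_neg {F : ℝ → ℝ} {x A B A' B' : ℝ} {c d : ℝ} (hc : 0 < c)
    (h : LD F (d - c * x) A B A' B') :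
    LD (fun y => F (d - c * y)) x A' (-(c * B')) A (-(c * B)) := by
  have t1 : Tendsto (fun y : ℝ => d - c * y) (𝓝[<] x) (𝓝[>] (d - c * x)) := by
    refine tendsto_nhdsWithin_iff.mpr ⟨?_, ?_⟩
    · exact (continuous_const.sub (continuous_const.mul continuous_id)).continuousAt.mono_left
        nhdsWithin_le_nhds
    · filter_upwards [self_mem_nhdsWithin] with y hy
      have : y < x := hy
      show d - c * x < d - c * y
      nlinarith
  have t2 : Tendsto (fun y : ℝ => d - c * y) (𝓝[>] x) (𝓝[<] (d - c * x)) := by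
    refine tendsto_nhdsWithin_iff.mpr ⟨?_, ?_⟩
    · exact (continuous_const.sub (continuous_const.mul continuous_id)).continuousAt.mono_left
        nhdsWithin_le_nhds
    · filter_upwards [self_mem_nhdsWithin] with y hy
      have : x < y := hy
      show d - c * y < d - c * x
      nlinarith
  refine ⟨?_, ?_⟩
  · filter_upwards [t1.eventually h.2] with y h1
    rw [h1]; ring
  · filter_upwards [t2.eventually h.1] with y h1
    rw [h1]; ring

theorem LD.congr {F H : ℝ → ℝ} {x A B A' B' : ℝ} (h : LD F x A B A' B') (e : H =ᶠ[𝓝 x] F) :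
    LD H x A B A' B' := by
  refine ⟨?_, ?_⟩
  · filter_upwards [h.1, e.filter_mono nhdsWithin_le_nhds] with y h1 h2
    rw [h2, h1]
  · filter_upwards [h.2, e.filter_mono nhdsWithin_le_nhds] with y h1 h2
    rw [h2, h1]

/-- an affine function that vanishes almost everywhere on an interval is zero -/
theorem affine_ae_zero {u v x A B : ℝ} (huv : u < v)
    (h : ∀ᵐ y ∂(volume.restrict (Set.Ioo u v)), A + B * (y - x) = 0) : A = 0 ∧ B = 0 := by
  have hE : {y | y ∈ Set.Ioo u v ∧ A + B * (y - x) ≠ 0} = ∅ := by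
    have ho : IsOpen {y | y ∈ Set.Ioo u v ∧ A + B * (y - x) ≠ 0} := by
      refine isOpen_Ioo.inter ?_
      exact isOpen_ne_fun (by fun_prop) continuous_const
    rw [← ho.measure_eq_zero_iff volume]
    rw [ae_restrict_iff' measurableSet_Ioo] at h
    rw [ae_iff] at h
    convert h using 2
    ext y
    simp only [Set.mem_ofPred_eq, Classical.not_imp]
  have h1 : ∀ y ∈ Set.Ioo u v, A + B * (y - x) = 0 := by
    intro y hy
    by_contra hne
    have : y ∈ {y | y ∈ Set.Ioo u v ∧ A + B * (y - x) ≠ 0} := ⟨hy, hne⟩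
    rw [hE] at this
    exact this
  have k1 := h1 (u + (v - u) / 3) ⟨by linarith, by linarith⟩
  have k2 := h1 (u + 2 * (v - u) / 3) ⟨by linarith, by linarith⟩
  have hB : B * ((v - u) / 3) = 0 := by linear_combination k2 - k1
  have hB0 : B = 0 := by
    rcases mul_eq_zero.mp hB with h | h
    · exact h
    · linarith
  refine ⟨?_, hB0⟩
  rw [hB0] at k1
  linarith

theorem LD.zero_of_ae {F : ℝ → ℝ} {p q x A B A' B' : ℝ} (h : LD F x A B A' B') (hp : p < x)
    (hq : x < q) (h0 : ∀ᵐ y ∂(volume.restrict (Set.Ioo p q)), F y = 0) :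
    A = 0 ∧ B = 0 ∧ A' = 0 ∧ B' = 0 := by
  obtain ⟨h1, h2⟩ := h
  rw [eventually_nhdsWithin_iff, Metric.eventually_nhds_iff] at h1 h2
  obtain ⟨ε₁, he1, h1⟩ := h1
  obtain ⟨ε₂, he2, h2⟩ := h2
  rw [ae_restrict_iff' measurableSet_Ioo] at h0
  have k1 : A = 0 ∧ B = 0 := by
    refine affine_ae_zero (u := max p (x - ε₁)) (v := x) (x := x) (max_lt hp (by linarith)) ?_
    rw [ae_restrict_iff' measurableSet_Ioo]
    filter_upwards [h0] with y hy hy2
    have hy3 : x - ε₁ < y := lt_of_le_of_lt (le_max_right _ _) hy2.1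
    have hy4 : p < y := lt_of_le_of_lt (le_max_left _ _) hy2.1
    rw [← h1 (by rw [Real.dist_eq, abs_lt]; constructor <;> linarith [hy2.2]) hy2.2]
    exact hy ⟨hy4, by linarith [hy2.2]⟩
  have k2 : A' = 0 ∧ B' = 0 := by
    refine affine_ae_zero (u := x) (v := min q (x + ε₂)) (x := x) (lt_min hq (by linarith)) ?_
    rw [ae_restrict_iff' measurableSet_Ioo]
    filter_upwards [h0] with y hy hy2
    have hy3 : y < x + ε₂ := lt_of_lt_of_le hy2.2 (min_le_right _ _)
    have hy4 : y < q := lt_of_lt_of_le hy2.2 (min_le_left _ _)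
    rw [← h2 (by rw [Real.dist_eq, abs_lt]; constructor <;> linarith [hy2.1]) hy2.1]
    exact hy ⟨by linarith [hy2.1], hy4⟩
  exact ⟨k1.1, k1.2, k2.1, k2.2⟩

/-! ### Local data of a chain -/

/-- slope -/
noncomputable def sm (x a b : ℕ → ℝ) (j : ℕ) : ℝ := (b j - a j) / (x (j + 1) - x j)

theorem G_eq {x a b : ℕ → ℝ} {n : ℕ} (hx : ∀ j < n, x j < x (j + 1)) {j : ℕ} (hj : j < n) {y : ℝ}
    (hy : y ∈ Set.Ioo (x j) (x (j + 1))) : G x a b n y = a j + sm x a b j * (y - x j) := by
  unfold G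
  rw [Finset.sum_eq_single j]
  · unfold pc sm
    rw [Set.indicator_of_mem hy]
  · intro i hi hij
    have hi' := Finset.mem_range.mp hi
    unfold pc
    refine Set.indicator_of_notMem ?_ _
    intro hy2
    rcases Nat.lt_or_gt_of_ne hij with h | h
    · have := mono_chain hx (show i + 1 ≤ j by omega) (by omega)
      linarith [hy2.2, hy.1]
    · have := mono_chain hx (show j + 1 ≤ i by omega) (by omega)
      linarith [hy2.1, hy.2]
  · intro h
    exact absurd (Finset.mem_range.mpr hj) h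

theorem exists_seg {x : ℕ → ℝ} {n : ℕ} {t : ℝ} (h0 : x 0 ≤ t) (hn : t < x n) :
    ∃ j < n, x j ≤ t ∧ t < x (j + 1) := by
  induction n with
  | zero => linarith
  | succ k ih =>
    rcases lt_or_ge t (x k) with h | h
    · obtain ⟨j, hj, h1, h2⟩ := ih h
      exact ⟨j, by omega, h1, h2⟩
    · exact ⟨k, by omega, h, hn⟩

/-- germ at a node -/
theorem LD_node {x a b : ℕ → ℝ} {n : ℕ} (hx : ∀ j < n, x j < x (j + 1)) {j : ℕ} (hj0 : 0 < j)
    (hj : j < n) :
    LD (G x a b n) (x j) (b (j - 1)) (sm x a b (j - 1)) (a j) (sm x a b j) := by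
  obtain ⟨i, rfl⟩ : ∃ i, j = i + 1 := ⟨j - 1, by omega⟩
  rw [Nat.add_sub_cancel]
  have hi := hx i (by omega)
  refine ⟨?_, ?_⟩
  · filter_upwards [Ioo_mem_nhdsLT hi] with y hy
    rw [G_eq hx (by omega : i < n) hy]
    have : x (i + 1) - x i ≠ 0 := by linarith
    unfold sm
    field_simp
    ring
  · filter_upwards [Ioo_mem_nhdsGT (hx (i + 1) hj)] with y hy
    rw [G_eq hx hj hy]

/-- germ at any point -/
theorem LD_exists {x a b : ℕ → ℝ} {n : ℕ} (hx : ∀ j < n, x j < x (j + 1)) {t : ℝ} (h0 : x 0 < t)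
    (hn : t < x n) : (∃ A B, LD (G x a b n) t A B A B) ∨ ∃ j, 0 < j ∧ j < n ∧ t = x j := by
  obtain ⟨j, hj, h1, h2⟩ := exists_seg h0.le hn
  rcases eq_or_lt_of_le h1 with h | h
  · right
    refine ⟨j, ?_, hj, h.symm⟩
    rcases Nat.eq_zero_or_pos j with h3 | h3
    · rw [h3] at h; linarith
    · exact h3
  · left
    refine ⟨a j + sm x a b j * (t - x j), sm x a b j, ?_, ?_⟩
    · filter_upwards [Ioo_mem_nhdsLT h] with y hy
      rw [G_eq hx hj ⟨hy.1, by linarith [hy.2]⟩]
      ring
    · filter_upwards [Ioo_mem_nhdsGT h2] with y hy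
      rw [G_eq hx hj ⟨by linarith [hy.1], hy.2⟩]
      ring

/-- concave germs at all points, if the nodes are concave -/
theorem LD_good {x a b : ℕ → ℝ} {n : ℕ} (hx : ∀ j < n, x j < x (j + 1)) {t : ℝ} (h0 : x 0 < t)
    (hn : t < x n) (hg : ∀ j, 0 < j → j < n → t = x j →
      b (j - 1) = a j ∧ 0 ≤ sm x a b (j - 1) - sm x a b j) :
    ∃ A B B', LD (G x a b n) t A B A B' ∧ B' ≤ B := by
  rcases LD_exists hx h0 hn (a := a) (b := b) with ⟨A, B, h⟩ | ⟨j, h1, h2, h3⟩
  · exact ⟨A, B, B, h, le_rfl⟩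
  · obtain ⟨k1, k2⟩ := hg j h1 h2 h3
    refine ⟨a j, sm x a b (j - 1), sm x a b j, ?_, by linarith⟩
    rw [h3]
    have := LD_node hx h1 h2 (a := a) (b := b)
    rwa [k1] at this

/-- the chain is affine between the nodes number `i` and `k` -/
def Aff (x a b : ℕ → ℝ) (i k : ℕ) (α β : ℝ) : Prop :=
  ∀ j, i ≤ j → j < k → a j = α + β * x j ∧ b j = α + β * x (j + 1)

theorem aff_of {x a b : ℕ → ℝ} {n : ℕ} (hx : ∀ j < n, x j < x (j + 1)) {i k : ℕ} (hk : k ≤ n)
    (h : ∀ j, i < j → j < k → b (j - 1) = a j ∧ sm x a b (j - 1) = sm x a b j) :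
    ∃ α β, Aff x a b i k α β := by
  refine ⟨a i - sm x a b i * x i, sm x a b i, ?_⟩
  have key : ∀ d, i + d < k → sm x a b (i + d) = sm x a b i ∧
      a (i + d) = a i - sm x a b i * x i + sm x a b i * x (i + d) := by
    intro d
    induction d with
    | zero => intro _; refine ⟨rfl, ?_⟩; simp
    | succ d ih =>
      intro hd
      obtain ⟨h1, h2⟩ := ih (by omega)
      obtain ⟨k1, k2⟩ := h (i + (d + 1)) (by omega) hd
      rw [show i + (d + 1) - 1 = i + d by omega] at k1 k2
      have h3 := hx (i + d) (by omega)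
      refine ⟨by rw [← k2, h1], ?_⟩
      rw [← k1]
      have h4 : b (i + d) = a (i + d) + sm x a b (i + d) * (x (i + d + 1) - x (i + d)) := by
        unfold sm
        have : x (i + d + 1) - x (i + d) ≠ 0 := by linarith
        field_simp
        ring
      rw [h4, h1, h2, show i + (d + 1) = i + d + 1 by omega]
      ring
  intro j hij hjk
  obtain ⟨d, rfl⟩ : ∃ d, j = i + d := ⟨j - i, by omega⟩
  obtain ⟨h1, h2⟩ := key d hjk
  refine ⟨h2, ?_⟩
  have h3 := hx (i + d) (by omega)
  have h4 : b (i + d) = a (i + d) + sm x a b (i + d) * (x (i + d + 1) - x (i + d)) := by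
    unfold sm
    have : x (i + d + 1) - x (i + d) ≠ 0 := by linarith
    field_simp
    ring
  rw [h4, h1, h2]
  ring

theorem Aff.G_eq {x a b : ℕ → ℝ} {n : ℕ} (hx : ∀ j < n, x j < x (j + 1)) {i k : ℕ} (hk : k ≤ n)
    {α β : ℝ} (h : Aff x a b i k α β) {j : ℕ} (hij : i ≤ j) (hjk : j < k) {y : ℝ}
    (hy : y ∈ Set.Ioo (x j) (x (j + 1))) : G x a b n y = α + β * y := by
  rw [H32.G_eq hx (by omega : j < n) hy]
  obtain ⟨h1, h2⟩ := h j hij hjk
  have h3 := hx j (by omega)
  have : x (j + 1) - x j ≠ 0 := by linarith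
  unfold sm
  rw [h1, h2]
  field_simp
  ring

theorem exists_seg' {x : ℕ → ℝ} {n i : ℕ} {t : ℝ} (h0 : x i ≤ t) (hin : i ≤ n) (hn : t < x n) :
    ∃ j, i ≤ j ∧ j < n ∧ x j ≤ t ∧ t < x (j + 1) := by
  obtain ⟨d, rfl⟩ : ∃ d, n = i + d := ⟨n - i, by omega⟩
  obtain ⟨j, h1, h2, h3⟩ := exists_seg (x := fun m => x (i + m)) (n := d) (t := t) h0 hn
  exact ⟨i + j, by omega, by omega, h2, h3⟩

theorem Aff.ld {x a b : ℕ → ℝ} {n : ℕ} (hx : ∀ j < n, x j < x (j + 1)) {i k : ℕ} (hk : k ≤ n)
    (hik : i ≤ k) {α β : ℝ} (h : Aff x a b i k α β) {t : ℝ} (h0 : x i < t) (h1 : t < x k) :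
    LD (G x a b n) t (α + β * t) β (α + β * t) β := by
  obtain ⟨j, hj1, hj2, h3, h4⟩ := exists_seg' h0.le hik h1
  refine ⟨?_, ?_⟩
  · rcases eq_or_lt_of_le h3 with h5 | h5
    · have hji : i < j := by
        rcases Nat.lt_or_ge i j with h6 | h6
        · exact h6
        · have : i = j := by omega
          rw [this] at h0; linarith
      obtain ⟨l, rfl⟩ : ∃ l, j = l + 1 := ⟨j - 1, by omega⟩
      have h6 := hx l (by omega)
      rw [← h5]
      filter_upwards [Ioo_mem_nhdsLT h6] with y hy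
      rw [h.G_eq hx hk (by omega : i ≤ l) (by omega) hy]
      ring
    · filter_upwards [Ioo_mem_nhdsLT h5] with y hy
      rw [h.G_eq hx hk hj1 hj2 ⟨hy.1, by linarith [hy.2]⟩]
      ring
  · filter_upwards [Ioo_mem_nhdsGT h4] with y hy
    rw [h.G_eq hx hk hj1 hj2 ⟨by linarith [hy.1], hy.2⟩]
    ring

end Pool.Agent.H5O.H32
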