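import Mathlib

/-!
Completeness of the cosines `cos (π a x)` on `[0, 1]`.
-/

namespace Pool.Agent.H5O.H32

open MeasureTheory Complex Filter Topology

theorem cos_complete {F : ℝ → ℝ} (hm : Measurable F) {M : ℝ} (hM : ∀ x, |F x| ≤ M)
    (h : ∀ a : ℕ, ∫ f in (0 : ℝ)..1, F f * Real.cos (Real.pi * a * f) = 0) :
    ∀ᵐ x ∂(volume.restrict (Set.Ioo (0 : ℝ) 1)), F x = 0 := by
  have hab : (-1 : ℝ) < 1 := by norm_num
  set f : ℝ → ℂ := fun x => ((F |x| : ℝ) : ℂ) with hf
  have hfm : Measurable f := Complex.measurable_ofReal.comp (hm.comp measurable_norm)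
  have hfb : ∀ x, ‖f x‖ ≤ M := by
    intro x
    rw [hf]
    simp only [Complex.norm_real, Real.norm_eq_abs]
    exact hM _
  have hL2 : MemLp f 2 (volume.restrict (Set.Ioc (-1 : ℝ) 1)) :=
    MemLp.of_bound hfm.aestronglyMeasurable M (ae_of_all _ hfb)
  have hint : ∀ (u v : ℝ) (g : ℝ → ℂ), Continuous g → IntervalIntegrable (fun x => g x * f x)
      volume u v := by
    intro u v g hg
    have h1 : IntervalIntegrable f volume u v := by
      rw [intervalIntegrable_iff]
      exact Measure.integrableOn_of_bounded (M := M) (by simp [Set.uIoc]) 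
        hfm.aestronglyMeasurable (ae_of_all _ hfb)
    exact h1.continuousOn_mul hg.continuousOn
  have hcoef : ∀ n : ℤ, fourierCoeffOn hab f n = 0 := by
    intro n
    rw [fourierCoeffOn_eq_integral]
    have e0 : ∀ x : ℝ, fourier (-n) (x : AddCircle ((1 : ℝ) - -1)) • f x
        = Complex.exp (-(Real.pi * n * x * I)) * f x := by
      intro x
      rw [fourier_coe_apply, smul_eq_mul]
      congr 2
      push_cast
      ring
    simp only [e0]
    have hc : Continuous fun x : ℝ => Complex.exp (-(Real.pi * n * x * I)) := by fun_prop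
    rw [← intervalIntegral.integral_add_adjacent_intervals (hint (-1) 0 _ hc) (hint 0 1 _ hc)]
    have e1 : ∫ x in (-1 : ℝ)..0, Complex.exp (-(Real.pi * n * x * I)) * f x
        = ∫ x in (0 : ℝ)..1, Complex.exp (Real.pi * n * x * I) * f x := by
      have := intervalIntegral.integral_comp_neg (a := (0 : ℝ)) (b := 1)
        (fun x : ℝ => Complex.exp (-(Real.pi * n * x * I)) * f x)
      rw [neg_zero] at this
      rw [← this]
      refine intervalIntegral.integral_congr fun x _ => ?_
      simp only [hf, abs_neg]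
      congr 2
      push_cast
      ring
    rw [e1, ← intervalIntegral.integral_add (hint 0 1 _ (by fun_prop)) (hint 0 1 _ hc)]
    have e2 : ∀ x ∈ Set.uIcc (0 : ℝ) 1, Complex.exp (Real.pi * n * x * I) * f x
        + Complex.exp (-(Real.pi * n * x * I)) * f x
        = ((2 * (F x * Real.cos (Real.pi * n.natAbs * x)) : ℝ) : ℂ) := by
      intro x hx
      rw [Set.uIcc_of_le zero_le_one] at hx
      have hx0 : |x| = x := abs_of_nonneg hx.1
      have hcos : Real.cos (Real.pi * n.natAbs * x) = Real.cos (Real.pi * n * x) := by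
        rcases Int.natAbs_eq n with hn | hn
        · have hn' : (n : ℝ) = ((n.natAbs : ℤ) : ℝ) := by exact_mod_cast congrArg (Int.cast (R := ℝ)) hn
          rw [hn', Int.cast_natCast]
        · have hn' : (n : ℝ) = -((n.natAbs : ℤ) : ℝ) := by
            have := congrArg (Int.cast (R := ℝ)) hn
            rw [Int.cast_neg] at this
            exact this
          rw [hn', Int.cast_natCast, mul_neg, neg_mul, Real.cos_neg]
      rw [hcos]
      simp only [hf, hx0]
      push_cast
      rw [Complex.cos, show Real.pi * n * x * I = (Real.pi * n * x : ℂ) * I by ring]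
      rw [show -((Real.pi * n * x : ℂ)) * I = -((Real.pi * n * x : ℂ) * I) by ring]
      ring
    rw [intervalIntegral.integral_congr e2, intervalIntegral.integral_ofReal,
      intervalIntegral.integral_const_mul, h n.natAbs]
    simp
  have hP := hasSum_sq_fourierCoeffOn hab hL2
  simp only [hcoef, norm_zero, ne_eq, OfNat.ofNat_ne_zero, not_false_eq_true, zero_pow] at hP
  have h0 : (1 - (-1 : ℝ))⁻¹ • ∫ x in (-1 : ℝ)..1, ‖f x‖ ^ 2 = 0 := hP.unique hasSum_zero
  have h1 : ∫ x in (-1 : ℝ)..1, ‖f x‖ ^ 2 = 0 := by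
    rw [smul_eq_mul] at h0
    rcases mul_eq_zero.mp h0 with h | h
    · norm_num at h
    · exact h
  rw [intervalIntegral.integral_of_le hab.le] at h1
  have hi : Integrable (fun x => ‖f x‖ ^ 2) (volume.restrict (Set.Ioc (-1 : ℝ) 1)) := by
    refine Measure.integrableOn_of_bounded (M := M ^ 2) (by simp) 
        (hfm.norm.pow_const 2).aestronglyMeasurable (ae_of_all _ fun x => ?_)
    rw [Real.norm_of_nonneg (by positivity)]
    exact pow_le_pow_left₀ (norm_nonneg _) (hfb x) 2
  rw [integral_eq_zero_iff_of_nonneg (fun x => by positivity) hi] at h1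
  have hsub : Set.Ioo (0 : ℝ) 1 ⊆ Set.Ioc (-1 : ℝ) 1 := fun x hx => ⟨by linarith [hx.1], hx.2.le⟩
  have h2 := ae_mono (Measure.restrict_mono hsub le_rfl) h1
  filter_upwards [h2, ae_restrict_mem measurableSet_Ioo] with x hx hx2
  simp only [Pi.zero_apply, hf, abs_of_pos hx2.1] at hx
  have h3 : ‖((F x : ℝ) : ℂ)‖ = 0 := pow_eq_zero_iff (two_ne_zero) |>.mp hx
  rw [Complex.norm_real, norm_eq_zero] at h3
  exact h3

end Pool.Agent.H5O.H32
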