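import Pool.Agent.Helper32_OPEN.Chain

/-!
Module BDRY, analysis of the kinks: the superposition of the boundary functions of the three sides
determines them.
-/

namespace Pool.Agent.H5O.H32

open MeasureTheory Filter Topology

/-- superposition of the three boundary functions (in the arc lengths of the sides) -/
noncomputable def FF (G1 G2 G3 : ℝ → ℝ) (f : ℝ) : ℝ :=
  Real.sqrt 3 * G1 (Real.sqrt 3 - Real.sqrt 3 * f) + G2 (3 / 2 * f + 0)
    + if f < 2 / 3 then G2 (3 * f + 0) + G3 (1 - 3 / 2 * f) else G2 (3 - 3 / 2 * f) + G3 (3 * f + -2)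

theorem sqrt3_pos : 0 < Real.sqrt 3 := Real.sqrt_pos.mpr (by norm_num)

theorem sqrt3_sq : Real.sqrt 3 * Real.sqrt 3 = 3 := Real.mul_self_sqrt (by norm_num)

theorem eqs_lt {G1 G2 G3 : ℝ → ℝ}
    (hF : ∀ᵐ f ∂(volume.restrict (Set.Ioo (0 : ℝ) 1)), FF G1 G2 G3 f = 0) {x : ℝ} (h0 : 0 < x)
    (h1 : x < 2 / 3) {A1 B1 A1' B1' A2 B2 A2' B2' A3 B3 A3' B3' A4 B4 A4' B4' : ℝ}
    (k1 : LD G1 (Real.sqrt 3 - Real.sqrt 3 * x) A1 B1 A1' B1')
    (k2 : LD G2 (3 / 2 * x) A2 B2 A2' B2') (k3 : LD G2 (3 * x) A3 B3 A3' B3')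
    (k4 : LD G3 (1 - 3 / 2 * x) A4 B4 A4' B4') :
    Real.sqrt 3 * A1' + A2 + A3 + A4' = 0 ∧ -3 * B1' + 3 / 2 * B2 + 3 * B3 - 3 / 2 * B4' = 0 ∧
    Real.sqrt 3 * A1 + A2' + A3' + A4 = 0 ∧
    -3 * B1 + 3 / 2 * B2' + 3 * B3' - 3 / 2 * B4 = 0 := by
  have l1 := (LD.comp_neg sqrt3_pos k1).const_mul (Real.sqrt 3)
  have l2 := LD.comp_mul (c := 3 / 2) (d := 0) (by norm_num) (by rwa [add_zero] : LD G2 (3 / 2 * x + 0) _ _ _ _)
  have l3 := LD.comp_mul (c := 3) (d := 0) (by norm_num) (by rwa [add_zero] : LD G2 (3 * x + 0) _ _ _ _)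
  have l4 := LD.comp_neg (c := 3 / 2) (by norm_num) k4
  have hL := (l1.add l2).add (l3.add l4)
  have hcg : FF G1 G2 G3 =ᶠ[𝓝 x] fun y => Real.sqrt 3 * G1 (Real.sqrt 3 - Real.sqrt 3 * y)
      + G2 (3 / 2 * y + 0) + (G2 (3 * y + 0) + G3 (1 - 3 / 2 * y)) := by
    filter_upwards [Iio_mem_nhds h1] with f hf
    have hf' : f < 2 / 3 := hf
    unfold FF
    rw [if_pos hf']
  have hL2 := hL.congr hcg
  obtain ⟨e1, e2, e3, e4⟩ := hL2.zero_of_ae h0 (by linarith) hF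
  have hs := sqrt3_sq
  refine ⟨by linarith, ?_, by linarith, ?_⟩
  · linear_combination e2 + B1' * hs
  · linear_combination e4 + B1 * hs

theorem eqs_gt {G1 G2 G3 : ℝ → ℝ}
    (hF : ∀ᵐ f ∂(volume.restrict (Set.Ioo (0 : ℝ) 1)), FF G1 G2 G3 f = 0) {x : ℝ} (h0 : 2 / 3 < x)
    (h1 : x < 1) {A1 B1 A1' B1' A2 B2 A2' B2' A3 B3 A3' B3' A4 B4 A4' B4' : ℝ}
    (k1 : LD G1 (Real.sqrt 3 - Real.sqrt 3 * x) A1 B1 A1' B1')
    (k2 : LD G2 (3 / 2 * x) A2 B2 A2' B2') (k3 : LD G2 (3 - 3 / 2 * x) A3 B3 A3' B3')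
    (k4 : LD G3 (3 * x + -2) A4 B4 A4' B4') :
    Real.sqrt 3 * A1' + A2 + A3' + A4 = 0 ∧ -3 * B1' + 3 / 2 * B2 - 3 / 2 * B3' + 3 * B4 = 0 ∧
    Real.sqrt 3 * A1 + A2' + A3 + A4' = 0 ∧
    -3 * B1 + 3 / 2 * B2' - 3 / 2 * B3 + 3 * B4' = 0 := by
  have l1 := (LD.comp_neg sqrt3_pos k1).const_mul (Real.sqrt 3)
  have l2 := LD.comp_mul (c := 3 / 2) (d := 0) (by norm_num) (by rwa [add_zero] : LD G2 (3 / 2 * x + 0) _ _ _ _)
  have l3 := LD.comp_neg (c := 3 / 2) (by norm_num) k3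
  have l4 := LD.comp_mul (c := 3) (d := -2) (by norm_num) k4
  have hL := (l1.add l2).add (l3.add l4)
  have hcg : FF G1 G2 G3 =ᶠ[𝓝 x] fun y => Real.sqrt 3 * G1 (Real.sqrt 3 - Real.sqrt 3 * y)
      + G2 (3 / 2 * y + 0) + (G2 (3 - 3 / 2 * y) + G3 (3 * y + -2)) := by
    filter_upwards [Ioi_mem_nhds h0] with f hf
    have hf' : (2 : ℝ) / 3 < f := hf
    unfold FF
    rw [if_neg (not_lt.mpr hf'.le)]
  have hL2 := hL.congr hcg
  obtain ⟨e1, e2, e3, e4⟩ := hL2.zero_of_ae (by linarith) h1 hF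
  have hs := sqrt3_sq
  refine ⟨by linarith, ?_, by linarith, ?_⟩
  · linear_combination e2 + B1' * hs
  · linear_combination e4 + B1 * hs

theorem kinks {x1 a1 b1 x2 a2 b2 x3 a3 b3 : ℕ → ℝ} {n1 n2 n3 : ℕ}
    (hx1 : ∀ j < n1, x1 j < x1 (j + 1)) (h10 : x1 0 = 0) (h1n : x1 n1 = Real.sqrt 3)
    (hx2 : ∀ j < n2, x2 j < x2 (j + 1)) (h20 : x2 0 = 0) (h2n : x2 n2 = 2)
    (hx3 : ∀ j < n3, x3 j < x3 (j + 1)) (h30 : x3 0 = 0) (h3n : x3 n3 = 1)
    (g1 : ∀ j, 0 < j → j < n1 → ¬ (3 / 4 * Real.sqrt 3 < x1 j ∧ x1 j < 7 / 8 * Real.sqrt 3) →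
      b1 (j - 1) = a1 j ∧ 0 ≤ sm x1 a1 b1 (j - 1) - sm x1 a1 b1 j)
    (g2 : ∀ j, 0 < j → j < n2 → b2 (j - 1) = a2 j ∧ 0 ≤ sm x2 a2 b2 (j - 1) - sm x2 a2 b2 j)
    (g3 : ∀ j, 0 < j → j < n3 → b3 (j - 1) = a3 j ∧ 0 ≤ sm x3 a3 b3 (j - 1) - sm x3 a3 b3 j)
    (e3 : a3 0 = 0) (e3' : b3 (n3 - 1) = 0) (e2 : b2 (n2 - 1) = 0)
    (ep : a1 0 + (2 + Real.sqrt 3) * (b1 (n1 - 1) + a2 0) = 0)
    (hF : ∀ᵐ f ∂(volume.restrict (Set.Ioo (0 : ℝ) 1)),
      FF (G x1 a1 b1 n1) (G x2 a2 b2 n2) (G x3 a3 b3 n3) f = 0) :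
    (∀ j < n1, a1 j = 0 ∧ b1 j = 0) ∧ (∀ j < n2, a2 j = 0 ∧ b2 j = 0) ∧
      ∀ j < n3, a3 j = 0 ∧ b3 j = 0 := by
  have hs := sqrt3_sq
  have hsp := sqrt3_pos
  set s : ℝ := Real.sqrt 3 with hs_def
  have p1 : 0 < n1 := by
    rcases Nat.eq_zero_or_pos n1 with h | h
    · rw [h, h10] at h1n; linarith
    · exact h
  have p2 : 0 < n2 := by
    rcases Nat.eq_zero_or_pos n2 with h | h
    · rw [h, h20] at h2n; linarith
    · exact h
  have p3 : 0 < n3 := by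
    rcases Nat.eq_zero_or_pos n3 with h | h
    · rw [h, h30] at h3n; linarith
    · exact h
  have d2 : ∀ t : ℝ, 0 < t → t < 2 → ∃ A B B', LD (G x2 a2 b2 n2) t A B A B' ∧ B' ≤ B :=
    fun t h0 h1 => LD_good hx2 (by rw [h20]; exact h0) (by rw [h2n]; exact h1)
      fun j hj0 hj _ => g2 j hj0 hj
  have d3 : ∀ t : ℝ, 0 < t → t < 1 → ∃ A B B', LD (G x3 a3 b3 n3) t A B A B' ∧ B' ≤ B :=
    fun t h0 h1 => LD_good hx3 (by rw [h30]; exact h0) (by rw [h3n]; exact h1)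
      fun j hj0 hj _ => g3 j hj0 hj
  have d1 : ∀ x : ℝ, 0 < x → x < 1 → ¬ (1 / 8 < x ∧ x < 1 / 4) →
      ∃ A B B', LD (G x1 a1 b1 n1) (s - s * x) A B A B' ∧ B' ≤ B := by
    intro x h0 h1 hM
    refine LD_good hx1 (by rw [h10]; nlinarith) (by rw [h1n]; nlinarith)
      fun j hj0 hj ht => g1 j hj0 hj ?_
    rintro ⟨m1, m2⟩
    refine hM ⟨?_, ?_⟩
    · by_contra hc
      nlinarith
    · by_contra hc
      nlinarith
  -- kinks of side 2 vanish
  have K2 : ∀ j, 0 < j → j < n2 → b2 (j - 1) = a2 j ∧ sm x2 a2 b2 (j - 1) = sm x2 a2 b2 j := by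
    intro j hj0 hj
    obtain ⟨q1, q2⟩ := g2 j hj0 hj
    refine ⟨q1, ?_⟩
    have hnode := LD_node hx2 hj0 hj (a := a2) (b := b2)
    have ht0 : 0 < x2 j := by rw [← h20]; exact smono_chain hx2 hj0 hj.le
    have ht2 : x2 j < 2 := by rw [← h2n]; exact smono_chain hx2 hj le_rfl
    by_cases hM : 3 / 8 < x2 j ∧ x2 j < 3 / 4
    · have hx0 : 0 < 2 / 3 * x2 j := by linarith
      have hx1' : 2 / 3 * x2 j < 2 / 3 := by linarith [hM.2]
      obtain ⟨A1, B1, B1', k1, le1⟩ := d1 (2 / 3 * x2 j) hx0 (by linarith) (by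
        rintro ⟨-, hb⟩; linarith [hM.1])
      obtain ⟨A3, B3, B3', k3, le3⟩ := d2 (3 * (2 / 3 * x2 j)) (by linarith) (by linarith [hM.2])
      obtain ⟨A4, B4, B4', k4, le4⟩ := d3 (1 - 3 / 2 * (2 / 3 * x2 j)) (by linarith [hM.2])
        (by linarith)
      have k2 : LD (G x2 a2 b2 n2) (3 / 2 * (2 / 3 * x2 j)) (b2 (j - 1)) (sm x2 a2 b2 (j - 1))
          (a2 j) (sm x2 a2 b2 j) := by
        rw [show 3 / 2 * (2 / 3 * x2 j) = x2 j by ring]; exact hnode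
      obtain ⟨-, c2, -, c4⟩ := eqs_lt hF hx0 hx1' k1 k2 k3 k4
      linarith
    · have hx0 : 0 < x2 j / 3 := by linarith
      have hx1' : x2 j / 3 < 2 / 3 := by linarith
      obtain ⟨A1, B1, B1', k1, le1⟩ := d1 (x2 j / 3) hx0 (by linarith) (by
        rintro ⟨hb, hb2⟩; exact hM ⟨by linarith, by linarith⟩)
      obtain ⟨A2, B2, B2', k2, le2⟩ := d2 (3 / 2 * (x2 j / 3)) (by linarith) (by linarith)
      obtain ⟨A4, B4, B4', k4, le4⟩ := d3 (1 - 3 / 2 * (x2 j / 3)) (by linarith)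
        (by linarith)
      have k3 : LD (G x2 a2 b2 n2) (3 * (x2 j / 3)) (b2 (j - 1)) (sm x2 a2 b2 (j - 1))
          (a2 j) (sm x2 a2 b2 j) := by
        rw [show 3 * (x2 j / 3) = x2 j by ring]; exact hnode
      obtain ⟨-, c2, -, c4⟩ := eqs_lt hF hx0 hx1' k1 k2 k3 k4
      linarith
  -- kinks of side 3 vanish
  have K3 : ∀ j, 0 < j → j < n3 → b3 (j - 1) = a3 j ∧ sm x3 a3 b3 (j - 1) = sm x3 a3 b3 j := by
    intro j hj0 hj
    obtain ⟨q1, q2⟩ := g3 j hj0 hj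
    refine ⟨q1, ?_⟩
    have hnode := LD_node hx3 hj0 hj (a := a3) (b := b3)
    have ht0 : 0 < x3 j := by rw [← h30]; exact smono_chain hx3 hj0 hj.le
    have ht2 : x3 j < 1 := by rw [← h3n]; exact smono_chain hx3 hj le_rfl
    have hx0 : 2 / 3 < (x3 j + 2) / 3 := by linarith
    have hx1' : (x3 j + 2) / 3 < 1 := by linarith
    obtain ⟨A1, B1, B1', k1, le1⟩ := d1 ((x3 j + 2) / 3) (by linarith) hx1' (by
        rintro ⟨hb, hb2⟩; linarith)
    obtain ⟨A2, B2, B2', k2, le2⟩ := d2 (3 / 2 * ((x3 j + 2) / 3)) (by linarith) (by linarith)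
    obtain ⟨A3, B3, B3', k3, le3⟩ := d2 (3 - 3 / 2 * ((x3 j + 2) / 3)) (by linarith) (by linarith)
    have k4 : LD (G x3 a3 b3 n3) (3 * ((x3 j + 2) / 3) + -2) (b3 (j - 1)) (sm x3 a3 b3 (j - 1))
          (a3 j) (sm x3 a3 b3 j) := by
      rw [show 3 * ((x3 j + 2) / 3) + -2 = x3 j by ring]; exact hnode
    obtain ⟨-, c2, -, c4⟩ := eqs_gt hF hx0 hx1' k1 k2 k3 k4
    linarith
  obtain ⟨α2, β2, f2⟩ := aff_of hx2 (i := 0) le_rfl fun j hj0 hj => K2 j hj0 hj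
  obtain ⟨α3, β3, f3⟩ := aff_of hx3 (i := 0) le_rfl fun j hj0 hj => K3 j hj0 hj
  have l2 : ∀ t : ℝ, 0 < t → t < 2 →
      LD (G x2 a2 b2 n2) t (α2 + β2 * t) β2 (α2 + β2 * t) β2 := fun t h0 h1 =>
    f2.ld hx2 le_rfl (Nat.zero_le _) (by rw [h20]; exact h0) (by rw [h2n]; exact h1)
  have l3 : ∀ t : ℝ, 0 < t → t < 1 →
      LD (G x3 a3 b3 n3) t (α3 + β3 * t) β3 (α3 + β3 * t) β3 := fun t h0 h1 =>
    f3.ld hx3 le_rfl (Nat.zero_le _) (by rw [h30]; exact h0) (by rw [h3n]; exact h1)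
  -- side 3 is zero
  have hα3 : α3 = 0 := by
    have := (f3 0 le_rfl p3).1
    rw [e3, h30] at this
    linarith
  have hβ3 : β3 = 0 := by
    have := (f3 (n3 - 1) (Nat.zero_le _) (by omega)).2
    rw [e3', Nat.sub_add_cancel p3, h3n] at this
    linarith
  have h22 : α2 + β2 * 2 = 0 := by
    have := (f2 (n2 - 1) (Nat.zero_le _) (by omega)).2
    rw [e2, Nat.sub_add_cancel p2, h2n] at this
    linarith
  have ha20 : a2 0 = α2 := by
    have := (f2 0 le_rfl p2).1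
    rw [h20] at this
    linarith
  -- kinks of side 1 away from the point of the middle
  have K1 : ∀ j, 0 < j → j < n1 → x1 j ≠ s / 3 →
      b1 (j - 1) = a1 j ∧ sm x1 a1 b1 (j - 1) = sm x1 a1 b1 j := by
    intro j hj0 hj hne
    have hnode := LD_node hx1 hj0 hj (a := a1) (b := b1)
    have ht0 : 0 < x1 j := by rw [← h10]; exact smono_chain hx1 hj0 hj.le
    have ht2 : x1 j < s := by rw [← h1n]; exact smono_chain hx1 hj le_rfl
    set x : ℝ := 1 - x1 j / s with hx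
    have hxs : s - s * x = x1 j := by
      rw [hx]; field_simp; ring
    have hx0 : 0 < x := by
      rw [hx, sub_pos, div_lt_one hsp]; exact ht2
    have hx1'' : x < 1 := by
      rw [hx]; have : 0 < x1 j / s := by positivity
      linarith
    rw [← hxs] at hnode
    have hne' : x ≠ 2 / 3 := by
      intro h
      rw [h] at hxs
      exact hne (by linarith)
    rcases lt_or_gt_of_ne hne' with h | h
    · obtain ⟨c1, c2, c3, c4⟩ := eqs_lt hF hx0 h hnode (l2 (3 / 2 * x) (by linarith) (by linarith))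
        (l2 (3 * x) (by linarith) (by linarith)) (l3 (1 - 3 / 2 * x) (by linarith) (by linarith))
      refine ⟨?_, by linarith⟩
      have : s * (b1 (j - 1) - a1 j) = 0 := by linarith
      rcases mul_eq_zero.mp this with h | h
      · linarith
      · linarith
    · obtain ⟨c1, c2, c3, c4⟩ := eqs_gt hF h hx1'' hnode (l2 (3 / 2 * x) (by linarith) (by linarith))
        (l2 (3 - 3 / 2 * x) (by linarith) (by linarith)) (l3 (3 * x + -2) (by linarith) (by linarith))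
      refine ⟨?_, by linarith⟩
      have : s * (b1 (j - 1) - a1 j) = 0 := by linarith
      rcases mul_eq_zero.mp this with h | h
      · linarith
      · linarith
  -- side 1 is affine on both sides of the middle
  have hmid : ∃ (i : ℕ) (α β α' β' : ℝ), 0 < i ∧ i ≤ n1 ∧ Aff x1 a1 b1 0 i α β ∧
      (∀ j, j < n1 → Aff x1 a1 b1 j (j + 1) α β ∨ Aff x1 a1 b1 j (j + 1) α' β') ∧
      b1 (n1 - 1) = α' + β' * s ∧
      (∀ t, 0 < t → t < s / 3 → LD (G x1 a1 b1 n1) t (α + β * t) β (α + β * t) β) ∧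
      ∀ t, s / 3 < t → t < s → LD (G x1 a1 b1 n1) t (α' + β' * t) β' (α' + β' * t) β' := by
    by_cases hnode : ∃ i, 0 < i ∧ i < n1 ∧ x1 i = s / 3
    · obtain ⟨i, hi0, hi, hxi⟩ := hnode
      obtain ⟨α, β, q1⟩ := aff_of hx1 (i := 0) (k := i) hi.le fun j hj0 hj =>
        K1 j hj0 (by omega) (by
          rw [← hxi]; exact (smono_chain hx1 hj hi.le).ne)
      obtain ⟨α', β', q2⟩ := aff_of hx1 (i := i) (k := n1) le_rfl fun j hj0 hj =>
        K1 j (by omega) hj (by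
          rw [← hxi]; exact (smono_chain hx1 hj0 hj.le).ne')
      refine ⟨i, α, β, α', β', hi0, hi.le, q1, ?_, ?_, ?_, ?_⟩
      · intro j hj
        rcases Nat.lt_or_ge j i with h | h
        · left
          intro l h1 h2
          exact q1 l (Nat.zero_le _) (by omega)
        · right
          intro l h1 h2
          exact q2 l (by omega) (by omega)
      · have := (q2 (n1 - 1) (by omega) (by omega)).2
        rw [Nat.sub_add_cancel p1, h1n] at this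
        exact this
      · intro t h0 h1
        exact q1.ld hx1 hi.le (Nat.zero_le _) (by rw [h10]; exact h0) (by rw [hxi]; exact h1)
      · intro t h0 h1
        exact q2.ld hx1 le_rfl hi.le (by rw [hxi]; exact h0) (by rw [h1n]; exact h1)
    · push Not at hnode
      obtain ⟨α, β, q1⟩ := aff_of hx1 (i := 0) (k := n1) le_rfl fun j hj0 hj =>
        K1 j hj0 hj (hnode j hj0 hj)
      refine ⟨n1, α, β, α, β, p1, le_rfl, q1, ?_, ?_, ?_, ?_⟩
      · intro j hj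
        left
        intro l h1 h2
        exact q1 l (Nat.zero_le _) (by omega)
      · have := (q1 (n1 - 1) (by omega) (by omega)).2
        rw [Nat.sub_add_cancel p1, h1n] at this
        exact this
      · intro t h0 h1
        exact q1.ld hx1 le_rfl (Nat.zero_le _) (by rw [h10]; exact h0) (by rw [h1n]; linarith)
      · intro t h0 h1
        exact q1.ld hx1 le_rfl (Nat.zero_le _) (by rw [h10]; linarith) (by rw [h1n]; exact h1)
  obtain ⟨i, α, β, α', β', hi0, hin, qa, qb, qc, qd, qe⟩ := hmid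
  have ha10 : a1 0 = α := by
    have := (qa 0 le_rfl hi0).1
    rw [h10] at this
    linarith
  -- the linear equations
  obtain ⟨-, -, u3, u4⟩ := eqs_lt hF (x := 1 / 2) (by norm_num) (by norm_num)
    (qe (s - s * (1 / 2)) (by linarith) (by linarith)) (l2 (3 / 2 * (1 / 2)) (by norm_num) (by norm_num))
    (l2 (3 * (1 / 2)) (by norm_num) (by norm_num)) (l3 (1 - 3 / 2 * (1 / 2)) (by norm_num) (by norm_num))
  obtain ⟨-, -, v3, v4⟩ := eqs_gt hF (x := 5 / 6) (by norm_num) (by norm_num)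
    (qd (s - s * (5 / 6)) (by linarith) (by linarith)) (l2 (3 / 2 * (5 / 6)) (by norm_num) (by norm_num))
    (l2 (3 - 3 / 2 * (5 / 6)) (by norm_num) (by norm_num)) (l3 (3 * (5 / 6) + -2) (by norm_num) (by norm_num))
  rw [hα3, hβ3] at u3 v3
  rw [hβ3] at u4 v4
  rw [ha10, qc, ha20] at ep
  have hβ : β = 0 := by linarith
  rw [hβ] at v3
  have hα2 : α2 = -2 * β2 := by linarith
  have hβ' : β' = 3 / 2 * β2 := by linarith
  rw [hα2] at u3 v3 ep
  rw [hβ'] at u3 ep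
  have w1 : s * α = β2 := by linarith
  have w2 : s * α' = -(β2 / 2) := by
    linear_combination u3 - 3 / 4 * β2 * hs
  -- ep : α + (2 + s) (α' + 3/2 β2 s - 2 β2) = 0, times s
  have w3 : β2 = 0 := by
    have h := congrArg (fun z => s * z) ep
    simp only [mul_zero] at h
    have h' : s * α + (2 + s) * (s * α') + (2 + s) * (3 / 2 * β2 * (s * s) - 2 * β2 * s) = 0 := by
      linear_combination h
    rw [w1, w2, hs] at h'
    have h'' : β2 + (2 + s) * (-(β2 / 2)) + (9 * β2 - 4 * β2 * s + 9 / 2 * β2 * s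
      - 2 * β2 * (s * s)) = 0 := by linear_combination h'
    rw [hs] at h''
    linarith
  have hα : α = 0 := by
    rw [w3] at w1
    rcases mul_eq_zero.mp w1 with h | h
    · linarith
    · exact h
  have hα' : α' = 0 := by
    rw [w3] at w2
    have : s * α' = 0 := by linarith
    rcases mul_eq_zero.mp this with h | h
    · linarith
    · exact h
  have hβ'0 : β' = 0 := by rw [hβ', w3]; ring
  have hα20 : α2 = 0 := by rw [hα2, w3]; ring
  refine ⟨fun j hj => ?_, fun j hj => ?_, fun j hj => ?_⟩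
  · rcases qb j hj with h | h
    · obtain ⟨r1, r2⟩ := h j le_rfl (by omega)
      rw [r1, r2, hα, hβ]
      constructor <;> ring
    · obtain ⟨r1, r2⟩ := h j le_rfl (by omega)
      rw [r1, r2, hα', hβ'0]
      constructor <;> ring
  · obtain ⟨r1, r2⟩ := f2 j (Nat.zero_le _) hj
    rw [r1, r2, hα20, w3]
    constructor <;> ring
  · obtain ⟨r1, r2⟩ := f3 j (Nat.zero_le _) hj
    rw [r1, r2, hα3, hβ3]
    constructor <;> ring

end Pool.Agent.H5O.H32
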