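import Pool.Agent.Helper32_OPEN.Trig
import Pool.Agent.Helper32_OPEN.Kinks
import Pool.Agent.Helper32_OPEN.Four

/-!
Module BDRY: the limit argument, and the cosine transform of the superposition.
-/

namespace Pool.Agent.H5O.H32

open MeasureTheory Complex Filter Topology Pool.Agent.H16Iso Pool.Agent.H1Gen Pool.Agent.H5O

theorem mem_reps {Λ a b : ℕ} : (a, b) ∈ reps Λ ↔ 1 ≤ a ∧ 1 ≤ b ∧ a ^ 2 + 3 * a * b + 3 * b ^ 2 = Λ := by
  unfold reps
  rw [Finset.mem_filter, Finset.mem_product, Finset.mem_range, Finset.mem_range]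
  constructor
  · rintro ⟨-, h⟩
    exact h
  · rintro ⟨h1, h2, h3⟩
    refine ⟨⟨?_, ?_⟩, h1, h2, h3⟩
    · show a < Λ + 1
      nlinarith
    · show b < Λ + 1
      nlinarith

/-- the cosine transform of the three boundary functions -/
noncomputable def Fhat (g1 g2 g3 : ℝ → ℝ) (a : ℕ) : ℝ :=
  Real.sqrt 3 * (∫ X in (0 : ℝ)..1, g1 X * Real.cos (Real.pi * a * X))
        + (∫ s in (0 : ℝ)..2, g2 s * (2 / 3 * Real.cos (2 * Real.pi * a * s / 3)
          + 1 / 3 * Real.cos (Real.pi * a * s / 3)))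
        + ∫ y in (0 : ℝ)..1, g3 y * (2 / 3 * Real.cos (2 * Real.pi * a * y / 3)
          + (-1) ^ a / 3 * Real.cos (Real.pi * a * y / 3))

theorem fhat_zero (hn : NtStatement) {g1 g2 g3 : ℝ → ℝ} (o1 : Osc 1 g1) (o2 : Osc 2 g2)
    (o3 : Osc 1 g3)
    (hM : Real.sqrt 3 * (∫ X in (0 : ℝ)..1, g1 X)
        + (∫ s in (0 : ℝ)..2, g2 s) + (∫ y in (0 : ℝ)..1, g3 y) = 0)
    (hQ : ∀ Λ : ℕ, ∑ q ∈ reps Λ, QQ g1 g2 g3 q.1 q.2 = 0) (a : ℕ) (ha : 1 ≤ a) :
    Fhat g1 g2 g3 a = 0 := by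
  obtain ⟨C₀, t1, t2⟩ := trig g1 g2 g3 o1 o2 o3
  rw [hM] at t1 t2
  simp only [mul_zero, sub_zero] at t1 t2
  set C : ℝ := |C₀| with hC
  have hC0 : 0 ≤ C := abs_nonneg _
  have hCC : C₀ ≤ C := le_abs_self _
  by_contra hne
  have hpos : 0 < |Fhat g1 g2 g3 a| := abs_pos.mpr hne
  set φ : ℝ := |Fhat g1 g2 g3 a| with hφ
  have hA : (1 : ℝ) ≤ a := by exact_mod_cast ha
  set A : ℝ := (a : ℝ) with hAdef
  obtain ⟨b₀, hb₀⟩ := exists_nat_ge (2 * C * A ^ 2 / φ)
  obtain ⟨b, hb, hsum⟩ := hn a ha (φ / (7 * C * A ^ 2 + 1)) (by positivity) (max b₀ 1)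
  have hb1 : 1 ≤ b := (le_max_right _ _).trans hb
  have hbb : b₀ ≤ b := (le_max_left _ _).trans hb
  have hB : (1 : ℝ) ≤ b := by exact_mod_cast hb1
  set B : ℝ := (b : ℝ) with hBdef
  set Λ : ℕ := a ^ 2 + 3 * a * b + 3 * b ^ 2 with hΛ
  have hmem : (a, b) ∈ reps Λ := mem_reps.mpr ⟨ha, hb1, rfl⟩
  have hΛr : (Λ : ℝ) = A ^ 2 + 3 * A * B + 3 * B ^ 2 := by
    rw [hΛ]; push_cast; ring
  have h1 : QQ g1 g2 g3 a b = -∑ q ∈ (reps Λ).erase (a, b), QQ g1 g2 g3 q.1 q.2 := by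
    have := Finset.add_sum_erase (reps Λ) (fun q => QQ g1 g2 g3 q.1 q.2) hmem
    rw [hQ Λ] at this
    simp only at this
    linarith
  have h2 : |QQ g1 g2 g3 a b| ≤ C * Λ * (φ / (7 * C * A ^ 2 + 1)) := by
    rw [h1, abs_neg]
    refine (Finset.abs_sum_le_sum_abs _ _).trans ?_
    have h3 : ∀ q ∈ (reps Λ).erase (a, b), |QQ g1 g2 g3 q.1 q.2|
        ≤ C * Λ * ((q.1 : ℝ)⁻¹ + (q.2 : ℝ)⁻¹) := by
      intro q hq
      obtain ⟨q1, q2⟩ := q
      have hq' := mem_reps.mp (Finset.mem_of_mem_erase hq)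
      obtain ⟨m1, m2, m3⟩ := hq'
      have m1' : (1 : ℝ) ≤ q1 := by exact_mod_cast m1
      have m2' : (1 : ℝ) ≤ q2 := by exact_mod_cast m2
      have m3' : ((q1 : ℝ) ^ 2 + 3 * q1 * q2 + 3 * q2 ^ 2) = (Λ : ℝ) := by
        rw [← m3]; push_cast; ring
      refine (t1 q1 q2 m1 m2).trans ?_
      have e1 : 0 ≤ (q1 : ℝ)⁻¹ + (q2 : ℝ)⁻¹ := by positivity
      refine mul_le_mul_of_nonneg_right ?_ e1
      have e2 : ((q1 : ℝ) + q2) ^ 2 ≤ Λ := by
        rw [← m3']; nlinarith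
      calc C₀ * ((q1 : ℝ) + q2) ^ 2 ≤ C * ((q1 : ℝ) + q2) ^ 2 :=
            mul_le_mul_of_nonneg_right hCC (by positivity)
        _ ≤ C * Λ := mul_le_mul_of_nonneg_left e2 hC0
    refine (Finset.sum_le_sum h3).trans ?_
    rw [← Finset.mul_sum]
    exact mul_le_mul_of_nonneg_left hsum (by positivity)
  have h4 := t2 a b ha hb1
  have h5 : |3 * B ^ 2 * Fhat g1 g2 g3 a| ≤ C * Λ * (φ / (7 * C * A ^ 2 + 1))
      + C * A ^ 2 * (B + 1) := by
    have h6 : |QQ g1 g2 g3 a b + 3 * B ^ 2 * Fhat g1 g2 g3 a| ≤ C * A ^ 2 * (B + 1) := by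
      refine h4.trans ?_
      have : 0 ≤ A ^ 2 * (B + 1) := by positivity
      nlinarith
    have h7 : 3 * B ^ 2 * Fhat g1 g2 g3 a
        = (QQ g1 g2 g3 a b + 3 * B ^ 2 * Fhat g1 g2 g3 a) - QQ g1 g2 g3 a b := by ring
    rw [h7]
    refine (abs_sub _ _).trans ?_
    linarith
  rw [abs_mul, abs_of_nonneg (by positivity : 0 ≤ 3 * B ^ 2), ← hφ, hΛr] at h5
  -- bounds
  have hb₂ : 2 * C * A ^ 2 ≤ φ * B := by
    have hbb' : (b₀ : ℝ) ≤ (b : ℝ) := by exact_mod_cast hbb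
    have : 2 * C * A ^ 2 / φ ≤ B := hb₀.trans hbb'
    rw [div_le_iff₀ hpos] at this
    linarith
  have hΛ7 : A ^ 2 + 3 * A * B + 3 * B ^ 2 ≤ 7 * (A ^ 2 * B ^ 2) := by
    have e1 : A ^ 2 ≤ A ^ 2 * B ^ 2 := by
      have : 1 ≤ B ^ 2 := by nlinarith
      nlinarith
    have e2 : B ^ 2 ≤ A ^ 2 * B ^ 2 := by
      have : 1 ≤ A ^ 2 := by nlinarith
      nlinarith
    have e3 : A * B ≤ A ^ 2 * B ^ 2 := by
      have : 1 ≤ A * B := by nlinarith
      nlinarith
    linarith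
  have hD : 0 < 7 * C * A ^ 2 + 1 := by positivity
  have h8 : C * (A ^ 2 + 3 * A * B + 3 * B ^ 2) * (φ / (7 * C * A ^ 2 + 1)) ≤ φ * B ^ 2 := by
    rw [mul_div_assoc', div_le_iff₀ hD]
    have e1 : C * (A ^ 2 + 3 * A * B + 3 * B ^ 2) * φ ≤ C * (7 * (A ^ 2 * B ^ 2)) * φ :=
      mul_le_mul_of_nonneg_right (mul_le_mul_of_nonneg_left hΛ7 hC0) hpos.le
    have e2 : 0 ≤ φ * B ^ 2 := by positivity
    nlinarith
  have h9 : C * A ^ 2 * (B + 1) ≤ φ * B ^ 2 := by
    have e1 : C * A ^ 2 * (B + 1) ≤ 2 * C * A ^ 2 * B := by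
      have : 0 ≤ C * A ^ 2 * (B - 1) := by
        have : 0 ≤ B - 1 := by linarith
        positivity
      nlinarith
    have e2 : 2 * C * A ^ 2 * B ≤ φ * B * B := mul_le_mul_of_nonneg_right hb₂ (by linarith)
    nlinarith
  have h10 : 0 < φ * B ^ 2 := by positivity
  nlinarith

/-! ### The transform of the superposition -/

theorem bmi {g : ℝ → ℝ} (hm : Measurable g) {M : ℝ} (hM : ∀ x, |g x| ≤ M) {φ : ℝ → ℝ}
    (hφ : Continuous φ) (u v : ℝ) : IntervalIntegrable (fun t => g t * φ t) volume u v := by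
  have h1 : IntervalIntegrable g volume u v := by
    rw [intervalIntegrable_iff]
    exact Measure.integrableOn_of_bounded (M := M) (by simp [Set.uIoc])
        hm.aestronglyMeasurable (ae_of_all _ fun t => by
          rw [Real.norm_eq_abs]; exact hM t)
  exact h1.mul_continuousOn hφ.continuousOn

theorem integral_congr_Ioo' {u v : ℝ} (huv : u ≤ v) {f g : ℝ → ℝ}
    (h : ∀ t ∈ Set.Ioo u v, f t = g t) : ∫ t in u..v, f t = ∫ t in u..v, g t := by
  rw [intervalIntegral.integral_of_le huv, intervalIntegral.integral_of_le huv,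
    integral_Ioc_eq_integral_Ioo, integral_Ioc_eq_integral_Ioo]
  exact setIntegral_congr_fun measurableSet_Ioo h

theorem transform {G1 G2 G3 : ℝ → ℝ} (m1 : Measurable G1) (m2 : Measurable G2) (m3 : Measurable G3)
    {M : ℝ} (b1 : ∀ x, |G1 x| ≤ M) (b2 : ∀ x, |G2 x| ≤ M) (b3 : ∀ x, |G3 x| ≤ M) (a : ℕ) :
    ∫ f in (0 : ℝ)..1, FF G1 G2 G3 f * Real.cos (Real.pi * a * f)
      = Fhat (fun X => G1 (Real.sqrt 3 - Real.sqrt 3 * X)) G2 (fun y => G3 (1 - y)) a := by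
  have hc : Continuous fun f : ℝ => Real.cos (Real.pi * a * f) := by fun_prop
  have i1 : ∀ u v : ℝ, IntervalIntegrable (fun f => G1 (Real.sqrt 3 - Real.sqrt 3 * f)
      * Real.cos (Real.pi * a * f)) volume u v :=
    bmi (m1.comp (by fun_prop)) (fun x => b1 _) hc
  have i2 : ∀ u v : ℝ, IntervalIntegrable (fun f => G2 (3 / 2 * f + 0)
      * Real.cos (Real.pi * a * f)) volume u v :=
    bmi (m2.comp (by fun_prop)) (fun x => b2 _) hc
  have i3 : ∀ u v : ℝ, IntervalIntegrable (fun f => G2 (3 * f + 0)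
      * Real.cos (Real.pi * a * f)) volume u v :=
    bmi (m2.comp (by fun_prop)) (fun x => b2 _) hc
  have i4 : ∀ u v : ℝ, IntervalIntegrable (fun f => G3 (1 - 3 / 2 * f)
      * Real.cos (Real.pi * a * f)) volume u v :=
    bmi (m3.comp (by fun_prop)) (fun x => b3 _) hc
  have i5 : ∀ u v : ℝ, IntervalIntegrable (fun f => G2 (3 - 3 / 2 * f)
      * Real.cos (Real.pi * a * f)) volume u v :=
    bmi (m2.comp (by fun_prop)) (fun x => b2 _) hc
  have i6 : ∀ u v : ℝ, IntervalIntegrable (fun f => G3 (3 * f + -2)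
      * Real.cos (Real.pi * a * f)) volume u v :=
    bmi (m3.comp (by fun_prop)) (fun x => b3 _) hc
  have eL : ∀ f ∈ Set.Ioo (0 : ℝ) (2 / 3), FF G1 G2 G3 f * Real.cos (Real.pi * a * f)
      = Real.sqrt 3 * (G1 (Real.sqrt 3 - Real.sqrt 3 * f) * Real.cos (Real.pi * a * f))
        + (G2 (3 / 2 * f + 0) * Real.cos (Real.pi * a * f)
        + (G2 (3 * f + 0) * Real.cos (Real.pi * a * f)
          + G3 (1 - 3 / 2 * f) * Real.cos (Real.pi * a * f))) := by
    intro f hf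
    unfold FF
    rw [if_pos hf.2]
    ring
  have eR : ∀ f ∈ Set.Ioo (2 / 3 : ℝ) 1, FF G1 G2 G3 f * Real.cos (Real.pi * a * f)
      = Real.sqrt 3 * (G1 (Real.sqrt 3 - Real.sqrt 3 * f) * Real.cos (Real.pi * a * f))
        + (G2 (3 / 2 * f + 0) * Real.cos (Real.pi * a * f)
        + (G2 (3 - 3 / 2 * f) * Real.cos (Real.pi * a * f)
          + G3 (3 * f + -2) * Real.cos (Real.pi * a * f))) := by
    intro f hf
    unfold FF
    rw [if_neg (not_lt.mpr hf.1.le)]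
    ring
  have mF : Measurable (FF G1 G2 G3) := by
    unfold FF
    refine ((m1.comp (by fun_prop)).const_mul _ |>.add (m2.comp (by fun_prop))).add ?_
    refine Measurable.ite (measurableSet_lt measurable_id measurable_const) ?_ ?_
    · exact (m2.comp (by fun_prop)).add (m3.comp (by fun_prop))
    · exact (m2.comp (by fun_prop)).add (m3.comp (by fun_prop))
  have bF : ∀ f, |FF G1 G2 G3 f| ≤ Real.sqrt 3 * M + M + (M + M) := by
    intro f
    unfold FF
    refine (abs_add_le _ _).trans (add_le_add ((abs_add_le _ _).trans (add_le_add ?_ (b2 _))) ?_)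
    · rw [abs_mul, abs_of_pos sqrt3_pos]
      exact mul_le_mul_of_nonneg_left (b1 _) sqrt3_pos.le
    · split_ifs
      · exact (abs_add_le _ _).trans (add_le_add (b2 _) (b3 _))
      · exact (abs_add_le _ _).trans (add_le_add (b2 _) (b3 _))
  have iF := bmi mF bF hc
  rw [← intervalIntegral.integral_add_adjacent_intervals (iF 0 (2 / 3)) (iF (2 / 3) 1),
    integral_congr_Ioo' (by norm_num) eL, integral_congr_Ioo' (by norm_num) eR]
  rw [intervalIntegral.integral_add ((i1 _ _).const_mul _) ((i2 _ _).add ((i3 _ _).add (i4 _ _))),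
    intervalIntegral.integral_add (i2 _ _) ((i3 _ _).add (i4 _ _)),
    intervalIntegral.integral_add (i3 _ _) (i4 _ _),
    intervalIntegral.integral_add ((i1 _ _).const_mul _) ((i2 _ _).add ((i5 _ _).add (i6 _ _))),
    intervalIntegral.integral_add (i2 _ _) ((i5 _ _).add (i6 _ _)),
    intervalIntegral.integral_add (i5 _ _) (i6 _ _),
    intervalIntegral.integral_const_mul, intervalIntegral.integral_const_mul]
  -- side 1
  have s1 := intervalIntegral.integral_add_adjacent_intervals (i1 0 (2 / 3)) (i1 (2 / 3) 1)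
  -- side 2
  have s2 := intervalIntegral.integral_add_adjacent_intervals (i2 0 (2 / 3)) (i2 (2 / 3) 1)
  have hc1 : Continuous fun s : ℝ => Real.cos (2 * Real.pi * a * s / 3) := by fun_prop
  have hc2 : Continuous fun s : ℝ => Real.cos (Real.pi * a * s / 3) := by fun_prop
  have r2 : ∫ f in (0 : ℝ)..1, G2 (3 / 2 * f + 0) * Real.cos (Real.pi * a * f)
      = 2 / 3 * ∫ s in (0 : ℝ)..(3 / 2), G2 s * Real.cos (2 * Real.pi * a * s / 3) := by
    have h := intervalIntegral.mul_integral_comp_mul_add (a := (0 : ℝ)) (b := 1)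
      (f := fun s => G2 s * Real.cos (2 * Real.pi * a * s / 3)) (3 / 2) 0
    rw [show (3 / 2 : ℝ) * 0 + 0 = 0 by norm_num, show (3 / 2 : ℝ) * 1 + 0 = 3 / 2 by norm_num] at h
    rw [← h, ← mul_assoc, show (2 / 3 : ℝ) * (3 / 2) = 1 by norm_num, one_mul]
    refine intervalIntegral.integral_congr fun f _ => ?_
    show G2 (3 / 2 * f + 0) * _ = G2 (3 / 2 * f + 0) * _
    congr 2
    ring
  have r5 : ∫ f in (2 / 3 : ℝ)..1, G2 (3 - 3 / 2 * f) * Real.cos (Real.pi * a * f)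
      = 2 / 3 * ∫ s in (3 / 2 : ℝ)..2, G2 s * Real.cos (2 * Real.pi * a * s / 3) := by
    have h := intervalIntegral.mul_integral_comp_sub_mul (a := (2 / 3 : ℝ)) (b := 1)
      (f := fun s => G2 s * Real.cos (2 * Real.pi * a * s / 3)) (3 / 2) 3
    rw [show (3 : ℝ) - 3 / 2 * 1 = 3 / 2 by norm_num,
      show (3 : ℝ) - 3 / 2 * (2 / 3) = 2 by norm_num] at h
    rw [← h, ← mul_assoc, show (2 / 3 : ℝ) * (3 / 2) = 1 by norm_num, one_mul]
    refine intervalIntegral.integral_congr fun f _ => ?_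
    show G2 (3 - 3 / 2 * f) * _ = G2 (3 - 3 / 2 * f) * _
    congr 1
    rw [show 2 * Real.pi * a * (3 - 3 / 2 * f) / 3 = a * (2 * Real.pi) - Real.pi * a * f by ring,
      Real.cos_nat_mul_two_pi_sub]
  have r3 : ∫ f in (0 : ℝ)..(2 / 3), G2 (3 * f + 0) * Real.cos (Real.pi * a * f)
      = 1 / 3 * ∫ s in (0 : ℝ)..2, G2 s * Real.cos (Real.pi * a * s / 3) := by
    have h := intervalIntegral.mul_integral_comp_mul_add (a := (0 : ℝ)) (b := 2 / 3)
      (f := fun s => G2 s * Real.cos (Real.pi * a * s / 3)) 3 0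
    rw [show (3 : ℝ) * 0 + 0 = 0 by norm_num, show (3 : ℝ) * (2 / 3) + 0 = 2 by norm_num] at h
    rw [← h, ← mul_assoc, show (1 / 3 : ℝ) * 3 = 1 by norm_num, one_mul]
    refine intervalIntegral.integral_congr fun f _ => ?_
    show G2 (3 * f + 0) * _ = G2 (3 * f + 0) * _
    congr 2
    ring
  have r4 : ∫ f in (0 : ℝ)..(2 / 3), G3 (1 - 3 / 2 * f) * Real.cos (Real.pi * a * f)
      = 2 / 3 * ∫ y in (0 : ℝ)..1, G3 (1 - y) * Real.cos (2 * Real.pi * a * y / 3) := by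
    have h := intervalIntegral.mul_integral_comp_mul_add (a := (0 : ℝ)) (b := 2 / 3)
      (f := fun y => G3 (1 - y) * Real.cos (2 * Real.pi * a * y / 3)) (3 / 2) 0
    rw [show (3 / 2 : ℝ) * 0 + 0 = 0 by norm_num,
      show (3 / 2 : ℝ) * (2 / 3) + 0 = 1 by norm_num] at h
    rw [← h, ← mul_assoc, show (2 / 3 : ℝ) * (3 / 2) = 1 by norm_num, one_mul]
    refine intervalIntegral.integral_congr fun f _ => ?_
    show G3 (1 - 3 / 2 * f) * _ = G3 (1 - (3 / 2 * f + 0)) * _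
    rw [add_zero]
    congr 2
    ring
  have r6 : ∫ f in (2 / 3 : ℝ)..1, G3 (3 * f + -2) * Real.cos (Real.pi * a * f)
      = (-1) ^ a / 3 * ∫ y in (0 : ℝ)..1, G3 (1 - y) * Real.cos (Real.pi * a * y / 3) := by
    have h := intervalIntegral.mul_integral_comp_sub_mul (a := (2 / 3 : ℝ)) (b := 1)
      (f := fun y => G3 (1 - y) * Real.cos (Real.pi * a * y / 3)) 3 3
    rw [show (3 : ℝ) - 3 * 1 = 0 by norm_num, show (3 : ℝ) - 3 * (2 / 3) = 1 by norm_num] at h
    rw [← h, ← mul_assoc, show ((-1 : ℝ) ^ a / 3) * 3 = (-1) ^ a by ring,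
      ← intervalIntegral.integral_const_mul]
    refine intervalIntegral.integral_congr fun f _ => ?_
    show G3 (3 * f + -2) * _ = (-1) ^ a * (G3 (1 - (3 - 3 * f)) * _)
    rw [show 1 - (3 - 3 * f) = 3 * f + -2 by ring,
      show Real.pi * a * (3 - 3 * f) / 3 = a * Real.pi - Real.pi * a * f by ring,
      Real.cos_nat_mul_pi_sub]
    have hss : ((-1 : ℝ) ^ a) * (-1) ^ a = 1 := by
      rw [← mul_pow]; norm_num
    linear_combination (-(G3 (3 * f + -2) * Real.cos (Real.pi * a * f))) * hss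
  have s3 := intervalIntegral.integral_add_adjacent_intervals (bmi m2 b2 hc1 0 (3 / 2))
    (bmi m2 b2 hc1 (3 / 2) 2)
  unfold Fhat
  have t2 : ∫ s in (0 : ℝ)..2, G2 s * (2 / 3 * Real.cos (2 * Real.pi * a * s / 3)
          + 1 / 3 * Real.cos (Real.pi * a * s / 3))
      = 2 / 3 * (∫ s in (0 : ℝ)..2, G2 s * Real.cos (2 * Real.pi * a * s / 3))
        + 1 / 3 * ∫ s in (0 : ℝ)..2, G2 s * Real.cos (Real.pi * a * s / 3) := by
    rw [← intervalIntegral.integral_const_mul, ← intervalIntegral.integral_const_mul,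
      ← intervalIntegral.integral_add ((bmi m2 b2 hc1 _ _).const_mul _)
        ((bmi m2 b2 hc2 _ _).const_mul _)]
    refine intervalIntegral.integral_congr fun f _ => ?_
    ring
  have m3' : Measurable fun y => G3 (1 - y) := m3.comp (by fun_prop)
  have t3 : ∫ s in (0 : ℝ)..1, G3 (1 - s) * (2 / 3 * Real.cos (2 * Real.pi * a * s / 3)
          + (-1) ^ a / 3 * Real.cos (Real.pi * a * s / 3))
      = 2 / 3 * (∫ s in (0 : ℝ)..1, G3 (1 - s) * Real.cos (2 * Real.pi * a * s / 3))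
        + (-1) ^ a / 3 * ∫ s in (0 : ℝ)..1, G3 (1 - s) * Real.cos (Real.pi * a * s / 3) := by
    rw [← intervalIntegral.integral_const_mul, ← intervalIntegral.integral_const_mul,
      ← intervalIntegral.integral_add ((bmi m3' (fun _ => b3 _) hc1 _ _).const_mul _)
        ((bmi m3' (fun _ => b3 _) hc2 _ _).const_mul _)]
    refine intervalIntegral.integral_congr fun f _ => ?_
    ring
  rw [t2, t3, r3, r4, r5, r6]
  rw [r2] at s2
  linear_combination Real.sqrt 3 * s1 + s2 + 2 / 3 * s3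

end Pool.Agent.H5O.H32
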