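import Pool.Agent.Helper5_OPEN.Stmt

/-!
Module TRIG: estimate of the quadratic boundary functional.
-/

namespace Pool.Agent.H5O.H32

open MeasureTheory Complex Filter Topology Pool.Agent.H16Iso Pool.Agent.H1Gen Pool.Agent.H5O

/-- cosine transform -/
noncomputable def ct (L : ℝ) (g : ℝ → ℝ) (ω : ℝ) : ℝ := ∫ t in (0 : ℝ)..L, g t * Real.cos (ω * t)

theorem ct_neg (L : ℝ) (g : ℝ → ℝ) (ω : ℝ) : ct L g (-ω) = ct L g ω := by
  unfold ct
  simp only [neg_mul, Real.cos_neg]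

theorem ct_zero (L : ℝ) (g : ℝ → ℝ) : ct L g 0 = ∫ t in (0 : ℝ)..L, g t := by
  unfold ct
  simp

theorem sq3 (α β γ u v w : ℝ) :
    (α * Real.sin u + β * Real.sin v + γ * Real.sin w) ^ 2
      = (α ^ 2 + β ^ 2 + γ ^ 2) / 2 * 1 + (-(α ^ 2 / 2)) * Real.cos (2 * u)
        + (-(β ^ 2 / 2)) * Real.cos (2 * v) + (-(γ ^ 2 / 2)) * Real.cos (2 * w)
        + α * β * Real.cos (u - v) + (-(α * β)) * Real.cos (u + v)
        + α * γ * Real.cos (u - w) + (-(α * γ)) * Real.cos (u + w)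
        + β * γ * Real.cos (v - w) + (-(β * γ)) * Real.cos (v + w) := by
  rw [Real.cos_sub, Real.cos_sub, Real.cos_sub, Real.cos_add, Real.cos_add, Real.cos_add,
    Real.cos_two_mul, Real.cos_two_mul, Real.cos_two_mul]
  have h1 := Real.sin_sq_add_cos_sq u
  have h2 := Real.sin_sq_add_cos_sq v
  have h3 := Real.sin_sq_add_cos_sq w
  linear_combination α ^ 2 * h1 + β ^ 2 * h2 + γ ^ 2 * h3

theorem int_sum {L : ℝ} {g : ℝ → ℝ} (hg : IntervalIntegrable g volume 0 L) {n : ℕ}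
    (c w : Fin n → ℝ) (f : ℝ → ℝ) (hf : ∀ t, f t = ∑ k, c k * Real.cos (w k * t)) :
    ∫ t in (0 : ℝ)..L, g t * f t = ∑ k, c k * ct L g (w k) := by
  have h1 : ∀ k : Fin n, IntervalIntegrable (fun t => c k * (g t * Real.cos (w k * t))) volume 0 L := by
    intro k
    refine IntervalIntegrable.const_mul ?_ _
    exact hg.mul_continuousOn (by fun_prop)
  have h2 : ∀ t, g t * f t = ∑ k, c k * (g t * Real.cos (w k * t)) := by
    intro t
    rw [hf t, Finset.mul_sum]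
    refine Finset.sum_congr rfl fun k _ => ?_
    ring
  simp only [h2]
  rw [intervalIntegral.integral_finsetSum (fun k _ => h1 k)]
  refine Finset.sum_congr rfl fun k _ => ?_
  rw [intervalIntegral.integral_const_mul]
  rfl

theorem int_sq {L : ℝ} {g : ℝ → ℝ} (hg : IntervalIntegrable g volume 0 L) (α β γ p q r : ℝ)
    (f : ℝ → ℝ) (hf : ∀ t, f t = α * Real.sin (p * t) + β * Real.sin (q * t)
      + γ * Real.sin (r * t)) :
    ∫ t in (0 : ℝ)..L, g t * f t ^ 2 =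
      (α ^ 2 + β ^ 2 + γ ^ 2) / 2 * ct L g 0 + (-(α ^ 2 / 2)) * ct L g (2 * p)
        + (-(β ^ 2 / 2)) * ct L g (2 * q) + (-(γ ^ 2 / 2)) * ct L g (2 * r)
        + α * β * ct L g (p - q) + (-(α * β)) * ct L g (p + q)
        + α * γ * ct L g (p - r) + (-(α * γ)) * ct L g (p + r)
        + β * γ * ct L g (q - r) + (-(β * γ)) * ct L g (q + r) := by
  have h := int_sum hg (n := 10) ![(α ^ 2 + β ^ 2 + γ ^ 2) / 2, -(α ^ 2 / 2), -(β ^ 2 / 2),
    -(γ ^ 2 / 2), α * β, -(α * β), α * γ, -(α * γ), β * γ, -(β * γ)]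
    ![0, 2 * p, 2 * q, 2 * r, p - q, p + q, p - r, p + r, q - r, q + r] (fun t => f t ^ 2)
    (by
      intro t
      simp only [hf t]
      rw [sq3]
      simp only [Fin.sum_univ_succ, Fin.sum_univ_zero, Matrix.cons_val_zero,
        Matrix.cons_val_succ, add_zero, zero_mul, Real.cos_zero]
      have e1 : p * t - q * t = (p - q) * t := by ring
      have e2 : p * t + q * t = (p + q) * t := by ring
      have e3 : p * t - r * t = (p - r) * t := by ring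
      have e4 : p * t + r * t = (p + r) * t := by ring
      have e5 : q * t - r * t = (q - r) * t := by ring
      have e6 : q * t + r * t = (q + r) * t := by ring
      rw [e1, e2, e3, e4, e5, e6, ← mul_assoc 2 p t, ← mul_assoc 2 q t, ← mul_assoc 2 r t]
      ring)
  rw [h]
  simp only [Fin.sum_univ_succ, Fin.sum_univ_zero, Matrix.cons_val_zero,
        Matrix.cons_val_succ, add_zero]
  ring

/-- bound of one term, first form -/
theorem tb1 {I : ℝ → ℝ} {C : ℝ} (hC : 0 ≤ C) (hI : ∀ ω : ℝ, 0 < ω → |I ω| ≤ C / ω) {a b : ℝ}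
    (ha : 1 ≤ a) (hb : 1 ≤ b) {c ω : ℝ} (hc : |c| ≤ 9 * (a + b) ^ 2) (hω : a ≤ ω ∨ b ≤ ω) :
    |c * I ω| ≤ 9 * C * ((a + b) ^ 2 * (a⁻¹ + b⁻¹)) := by
  have hω0 : 0 < ω := by rcases hω with h | h <;> linarith
  have h1 : C / ω ≤ C * (a⁻¹ + b⁻¹) := by
    rw [div_eq_mul_inv]
    refine mul_le_mul_of_nonneg_left ?_ hC
    have hai : 0 < a⁻¹ := by positivity
    have hbi : 0 < b⁻¹ := by positivity
    rcases hω with h | h
    · have := inv_anti₀ (by linarith : (0:ℝ) < a) h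
      linarith
    · have := inv_anti₀ (by linarith : (0:ℝ) < b) h
      linarith
  rw [abs_mul]
  have h2 := hI ω hω0
  have h3 : 0 ≤ C * (a⁻¹ + b⁻¹) := by positivity
  calc |c| * |I ω| ≤ (9 * (a + b) ^ 2) * (C * (a⁻¹ + b⁻¹)) :=
        mul_le_mul hc (h2.trans h1) (abs_nonneg _) (by positivity)
    _ = _ := by ring

/-- bound of one term, frequencies `≥ b` -/
theorem tb2 {I : ℝ → ℝ} {C : ℝ} (hC : 0 ≤ C) (hI : ∀ ω : ℝ, 0 < ω → |I ω| ≤ C / ω) {a b : ℝ}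
    (ha : 1 ≤ a) (hb : 1 ≤ b) {c ω : ℝ} (hc : |c| ≤ 9 * (a + b) ^ 2) (hω : b ≤ ω) :
    |c * I ω| ≤ 18 * C * (a ^ 2 * (b + 1)) := by
  have hω0 : 0 < ω := by linarith
  have hb0 : 0 < b := by linarith
  have h1 : C / ω ≤ C / b := div_le_div_of_nonneg_left hC hb0 hω
  rw [abs_mul]
  have h2 := hI ω hω0
  calc |c| * |I ω| ≤ (9 * (a + b) ^ 2) * (C / b) :=
        mul_le_mul hc (h2.trans h1) (abs_nonneg _) (by positivity)
    _ = 9 * C * ((a + b) ^ 2 / b) := by ring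
    _ ≤ 9 * C * (2 * (a ^ 2 * (b + 1))) := by
        refine mul_le_mul_of_nonneg_left ?_ (by positivity)
        rw [div_le_iff₀ hb0]
        have h4 : 1 ≤ a ^ 2 := by nlinarith
        have h5 : (0:ℝ) ≤ (a ^ 2 - 1) * b ^ 2 := by
          have : 0 ≤ a ^ 2 - 1 := by linarith
          positivity
        have h6 : 0 ≤ a ^ 2 * (b - 1) := by
          have : 0 ≤ b - 1 := by linarith
          positivity
        nlinarith [sq_nonneg (a - b)]
    _ = _ := by ring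

/-- bound of one term, frequencies `≥ a`, small coefficients -/
theorem tb3 {I : ℝ → ℝ} {C : ℝ} (hC : 0 ≤ C) (hI : ∀ ω : ℝ, 0 < ω → |I ω| ≤ C / ω) {a b : ℝ}
    (ha : 1 ≤ a) (hb : 1 ≤ b) {c ω : ℝ} (hc : |c| ≤ 9 * a * (a + b)) (hω : a ≤ ω) :
    |c * I ω| ≤ 18 * C * (a ^ 2 * (b + 1)) := by
  have hω0 : 0 < ω := by linarith
  have ha0 : 0 < a := by linarith
  have h1 : C / ω ≤ C / a := div_le_div_of_nonneg_left hC ha0 hω
  rw [abs_mul]
  have h2 := hI ω hω0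
  calc |c| * |I ω| ≤ (9 * a * (a + b)) * (C / a) :=
        mul_le_mul hc (h2.trans h1) (abs_nonneg _) (by positivity)
    _ = 9 * C * (a + b) := by field_simp
    _ ≤ 9 * C * (2 * (a ^ 2 * (b + 1))) := by
        refine mul_le_mul_of_nonneg_left ?_ (by positivity)
        have h4 : a ≤ a ^ 2 := by nlinarith
        have h5 : b ≤ a ^ 2 * b := by nlinarith
        nlinarith
    _ = _ := by ring

theorem sum9 {x T : ℝ} {t1 t2 t3 t4 t5 t6 t7 t8 t9 : ℝ} (hx : x = t1 + t2 + t3 + t4 + t5 + t6 + t7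
    + t8 + t9) (h1 : |t1| ≤ T) (h2 : |t2| ≤ T) (h3 : |t3| ≤ T) (h4 : |t4| ≤ T) (h5 : |t5| ≤ T)
    (h6 : |t6| ≤ T) (h7 : |t7| ≤ T) (h8 : |t8| ≤ T) (h9 : |t9| ≤ T) : |x| ≤ 9 * T := by
  rw [abs_le] at *
  subst hx
  constructor <;> linarith [h1.1, h1.2]

theorem sum10 {x T : ℝ} {t1 t2 t3 t4 t5 t6 t7 t8 t9 : ℝ} (hx : x = t1 + t2 + t3 + t4 + t5 + t6 + t7
    + t8 + t9) (h1 : |t1| ≤ T) (h2 : |t2| ≤ T) (h3 : |t3| ≤ T) (h4 : |t4| ≤ T) (h5 : |t5| ≤ T)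
    (h6 : |t6| ≤ T) (h7 : |t7| ≤ T) (h8 : |t8| ≤ T) (h9 : |t9| ≤ T) : |x| ≤ 9 * T :=
  sum9 hx h1 h2 h3 h4 h5 h6 h7 h8 h9

/-- first side -/
theorem side1 {g : ℝ → ℝ} (hg : IntervalIntegrable g volume 0 1) {C : ℝ} (hC : 0 ≤ C)
    (hI : ∀ ω : ℝ, 0 < ω → |ct 1 g ω| ≤ C / ω) (a b : ℕ) (ha : 1 ≤ a) (hb : 1 ≤ b) :
    |(∫ X in (0 : ℝ)..1, g X * D1 a b X ^ 2) - 3 * (a ^ 2 + 3 * a * b + 3 * b ^ 2) * ct 1 g 0|
        ≤ 9 * (9 * C * (((a : ℝ) + b) ^ 2 * ((a : ℝ)⁻¹ + (b : ℝ)⁻¹))) ∧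
    |(∫ X in (0 : ℝ)..1, g X * D1 a b X ^ 2) - 3 * (a ^ 2 + 3 * a * b + 3 * b ^ 2) * ct 1 g 0
        + 9 * b ^ 2 * ct 1 g (Real.pi * a)| ≤ 9 * (18 * C * ((a : ℝ) ^ 2 * ((b : ℝ) + 1))) := by
  have hpi : 3 < Real.pi := Real.pi_gt_three
  have h := int_sq hg (a : ℝ) (2 * a + 3 * b) (-(a + 3 * b)) (Real.pi * (a + 2 * b))
    (Real.pi * b) (Real.pi * (a + b)) (D1 a b) (by intro t; unfold D1; ring)
  have hA : (1 : ℝ) ≤ a := by exact_mod_cast ha
  have hB : (1 : ℝ) ≤ b := by exact_mod_cast hb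
  set A : ℝ := (a : ℝ)
  set B : ℝ := (b : ℝ)
  have e1 : Real.pi * (A + 2 * B) - Real.pi * B = Real.pi * (A + B) := by ring
  have e3 : Real.pi * (A + 2 * B) - Real.pi * (A + B) = Real.pi * B := by ring
  have e5 : Real.pi * B - Real.pi * (A + B) = -(Real.pi * A) := by ring
  rw [e1, e3, e5, ct_neg] at h
  have hAB : 0 ≤ A * B := by positivity
  have hA2 : 1 ≤ A ^ 2 := by nlinarith
  have hB2 : 1 ≤ B ^ 2 := by nlinarith
  have hpA : A ≤ Real.pi * A := by nlinarith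
  have hpB : B ≤ Real.pi * B := by nlinarith
  constructor
  · refine sum9 (t1 := (-(A ^ 2 / 2)) * ct 1 g (2 * (Real.pi * (A + 2 * B))))
      (t2 := (-((2 * A + 3 * B) ^ 2 / 2)) * ct 1 g (2 * (Real.pi * B)))
      (t3 := (-((-(A + 3 * B)) ^ 2 / 2)) * ct 1 g (2 * (Real.pi * (A + B))))
      (t4 := A * (2 * A + 3 * B) * ct 1 g (Real.pi * (A + B)))
      (t5 := (-(A * (2 * A + 3 * B))) * ct 1 g (Real.pi * (A + 2 * B) + Real.pi * B))
      (t6 := A * (-(A + 3 * B)) * ct 1 g (Real.pi * B))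
      (t7 := (-(A * (-(A + 3 * B)))) * ct 1 g (Real.pi * (A + 2 * B) + Real.pi * (A + B)))
      (t8 := (2 * A + 3 * B) * (-(A + 3 * B)) * ct 1 g (Real.pi * A))
      (t9 := (-((2 * A + 3 * B) * (-(A + 3 * B)))) * ct 1 g (Real.pi * B + Real.pi * (A + B)))
      (by rw [h]; ring) ?_ ?_ ?_ ?_ ?_ ?_ ?_ ?_ ?_
    · exact tb1 hC hI hA hB (abs_le.mpr ⟨by linarith, by linarith⟩) (Or.inl (by linarith))
    · exact tb1 hC hI hA hB (abs_le.mpr ⟨by linarith, by linarith⟩) (Or.inr (by linarith))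
    · exact tb1 hC hI hA hB (abs_le.mpr ⟨by linarith, by linarith⟩) (Or.inl (by linarith))
    · exact tb1 hC hI hA hB (abs_le.mpr ⟨by linarith, by linarith⟩) (Or.inl (by linarith))
    · exact tb1 hC hI hA hB (abs_le.mpr ⟨by linarith, by linarith⟩) (Or.inl (by linarith))
    · exact tb1 hC hI hA hB (abs_le.mpr ⟨by linarith, by linarith⟩) (Or.inr (by linarith))
    · exact tb1 hC hI hA hB (abs_le.mpr ⟨by linarith, by linarith⟩) (Or.inl (by linarith))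
    · exact tb1 hC hI hA hB (abs_le.mpr ⟨by linarith, by linarith⟩) (Or.inl (by linarith))
    · exact tb1 hC hI hA hB (abs_le.mpr ⟨by linarith, by linarith⟩) (Or.inl (by linarith))
  · refine sum9 (t1 := (-(A ^ 2 / 2)) * ct 1 g (2 * (Real.pi * (A + 2 * B))))
      (t2 := (-((2 * A + 3 * B) ^ 2 / 2)) * ct 1 g (2 * (Real.pi * B)))
      (t3 := (-((-(A + 3 * B)) ^ 2 / 2)) * ct 1 g (2 * (Real.pi * (A + B))))
      (t4 := A * (2 * A + 3 * B) * ct 1 g (Real.pi * (A + B)))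
      (t5 := (-(A * (2 * A + 3 * B))) * ct 1 g (Real.pi * (A + 2 * B) + Real.pi * B))
      (t6 := A * (-(A + 3 * B)) * ct 1 g (Real.pi * B))
      (t7 := (-(A * (-(A + 3 * B)))) * ct 1 g (Real.pi * (A + 2 * B) + Real.pi * (A + B)))
      (t8 := (-(2 * A ^ 2 + 9 * A * B)) * ct 1 g (Real.pi * A))
      (t9 := (-((2 * A + 3 * B) * (-(A + 3 * B)))) * ct 1 g (Real.pi * B + Real.pi * (A + B)))
      (by rw [h]; ring) ?_ ?_ ?_ ?_ ?_ ?_ ?_ ?_ ?_
    · exact tb2 hC hI hA hB (abs_le.mpr ⟨by linarith, by linarith⟩) (by linarith)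
    · exact tb2 hC hI hA hB (abs_le.mpr ⟨by linarith, by linarith⟩) (by linarith)
    · exact tb2 hC hI hA hB (abs_le.mpr ⟨by linarith, by linarith⟩) (by linarith)
    · exact tb2 hC hI hA hB (abs_le.mpr ⟨by linarith, by linarith⟩) (by linarith)
    · exact tb2 hC hI hA hB (abs_le.mpr ⟨by linarith, by linarith⟩) (by linarith)
    · exact tb2 hC hI hA hB (abs_le.mpr ⟨by linarith, by linarith⟩) (by linarith)
    · exact tb2 hC hI hA hB (abs_le.mpr ⟨by linarith, by linarith⟩) (by linarith)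
    · exact tb3 hC hI hA hB (abs_le.mpr ⟨by linarith, by linarith⟩) (by linarith)
    · exact tb2 hC hI hA hB (abs_le.mpr ⟨by linarith, by linarith⟩) (by linarith)

/-- second side -/
theorem side2 {g : ℝ → ℝ} (hg : IntervalIntegrable g volume 0 2) {C : ℝ} (hC : 0 ≤ C)
    (hI : ∀ ω : ℝ, 0 < ω → |ct 2 g ω| ≤ C / ω) (a b : ℕ) (ha : 1 ≤ a) (hb : 1 ≤ b) :
    |(∫ s in (0 : ℝ)..2, g s * D2 a b s ^ 2) - (a ^ 2 + 3 * a * b + 3 * b ^ 2) * ct 2 g 0|
        ≤ 9 * (9 * C * (((a : ℝ) + b) ^ 2 * ((a : ℝ)⁻¹ + (b : ℝ)⁻¹))) ∧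
    |(∫ s in (0 : ℝ)..2, g s * D2 a b s ^ 2) - (a ^ 2 + 3 * a * b + 3 * b ^ 2) * ct 2 g 0
        + 3 * b ^ 2 * (2 / 3 * ct 2 g (2 * Real.pi * a / 3) + 1 / 3 * ct 2 g (Real.pi * a / 3))|
        ≤ 10 * (18 * C * ((a : ℝ) ^ 2 * ((b : ℝ) + 1))) := by
  have hpi : 3 < Real.pi := Real.pi_gt_three
  have h := int_sq hg (-(b : ℝ)) (a + b) (-(a + 2 * b)) (Real.pi * (2 * a + 3 * b) / 3)
    (Real.pi * (a + 3 * b) / 3) (Real.pi * a / 3) (D2 a b) (by intro t; unfold D2; ring_nf)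
  have hA : (1 : ℝ) ≤ a := by exact_mod_cast ha
  have hB : (1 : ℝ) ≤ b := by exact_mod_cast hb
  set A : ℝ := (a : ℝ)
  set B : ℝ := (b : ℝ)
  have e1 : Real.pi * (2 * A + 3 * B) / 3 - Real.pi * (A + 3 * B) / 3 = Real.pi * A / 3 := by ring
  have e2 : 2 * (Real.pi * A / 3) = 2 * Real.pi * A / 3 := by ring
  rw [e1, e2] at h
  have hAB : 0 ≤ A * B := by positivity
  have hA2 : 1 ≤ A ^ 2 := by nlinarith
  have hB2 : 1 ≤ B ^ 2 := by nlinarith
  have hpA : 3 * A ≤ Real.pi * A := by nlinarith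
  have hpB : 3 * B ≤ Real.pi * B := by nlinarith
  constructor
  · refine sum9 (t1 := (-((-B) ^ 2 / 2)) * ct 2 g (2 * (Real.pi * (2 * A + 3 * B) / 3)))
      (t2 := (-((A + B) ^ 2 / 2)) * ct 2 g (2 * (Real.pi * (A + 3 * B) / 3)))
      (t3 := (-((-(A + 2 * B)) ^ 2 / 2)) * ct 2 g (2 * Real.pi * A / 3))
      (t4 := -B * (A + B) * ct 2 g (Real.pi * A / 3))
      (t5 := (-(-B * (A + B))) * ct 2 g (Real.pi * (2 * A + 3 * B) / 3 + Real.pi * (A + 3 * B) / 3))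
      (t6 := -B * (-(A + 2 * B)) * ct 2 g (Real.pi * (2 * A + 3 * B) / 3 - Real.pi * A / 3))
      (t7 := (-(-B * (-(A + 2 * B)))) * ct 2 g (Real.pi * (2 * A + 3 * B) / 3 + Real.pi * A / 3))
      (t8 := (A + B) * (-(A + 2 * B)) * ct 2 g (Real.pi * (A + 3 * B) / 3 - Real.pi * A / 3))
      (t9 := (-((A + B) * (-(A + 2 * B)))) * ct 2 g (Real.pi * (A + 3 * B) / 3 + Real.pi * A / 3))
      (by rw [h]; ring) ?_ ?_ ?_ ?_ ?_ ?_ ?_ ?_ ?_
    · exact tb1 hC hI hA hB (abs_le.mpr ⟨by linarith, by linarith⟩) (Or.inl (by linarith))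
    · exact tb1 hC hI hA hB (abs_le.mpr ⟨by linarith, by linarith⟩) (Or.inr (by linarith))
    · exact tb1 hC hI hA hB (abs_le.mpr ⟨by linarith, by linarith⟩) (Or.inl (by linarith))
    · exact tb1 hC hI hA hB (abs_le.mpr ⟨by linarith, by linarith⟩) (Or.inl (by linarith))
    · exact tb1 hC hI hA hB (abs_le.mpr ⟨by linarith, by linarith⟩) (Or.inl (by linarith))
    · exact tb1 hC hI hA hB (abs_le.mpr ⟨by linarith, by linarith⟩) (Or.inr (by linarith))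
    · exact tb1 hC hI hA hB (abs_le.mpr ⟨by linarith, by linarith⟩) (Or.inl (by linarith))
    · exact tb1 hC hI hA hB (abs_le.mpr ⟨by linarith, by linarith⟩) (Or.inr (by linarith))
    · exact tb1 hC hI hA hB (abs_le.mpr ⟨by linarith, by linarith⟩) (Or.inr (by linarith))
  · have hT : (0 : ℝ) ≤ 18 * C * (A ^ 2 * (B + 1)) := by positivity
    refine (sum9 (T := 18 * C * (A ^ 2 * (B + 1)))
      (t1 := (-((-B) ^ 2 / 2)) * ct 2 g (2 * (Real.pi * (2 * A + 3 * B) / 3)))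
      (t2 := (-((A + B) ^ 2 / 2)) * ct 2 g (2 * (Real.pi * (A + 3 * B) / 3)))
      (t3 := (-((A ^ 2 + 4 * A * B) / 2)) * ct 2 g (2 * Real.pi * A / 3))
      (t4 := -(A * B) * ct 2 g (Real.pi * A / 3))
      (t5 := (-(-B * (A + B))) * ct 2 g (Real.pi * (2 * A + 3 * B) / 3 + Real.pi * (A + 3 * B) / 3))
      (t6 := -B * (-(A + 2 * B)) * ct 2 g (Real.pi * (2 * A + 3 * B) / 3 - Real.pi * A / 3))
      (t7 := (-(-B * (-(A + 2 * B)))) * ct 2 g (Real.pi * (2 * A + 3 * B) / 3 + Real.pi * A / 3))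
      (t8 := (A + B) * (-(A + 2 * B)) * ct 2 g (Real.pi * (A + 3 * B) / 3 - Real.pi * A / 3))
      (t9 := (-((A + B) * (-(A + 2 * B)))) * ct 2 g (Real.pi * (A + 3 * B) / 3 + Real.pi * A / 3))
      (by rw [h]; ring) ?_ ?_ ?_ ?_ ?_ ?_ ?_ ?_ ?_).trans (by linarith)
    · exact tb2 hC hI hA hB (abs_le.mpr ⟨by linarith, by linarith⟩) (by linarith)
    · exact tb2 hC hI hA hB (abs_le.mpr ⟨by linarith, by linarith⟩) (by linarith)
    · exact tb3 hC hI hA hB (abs_le.mpr ⟨by linarith, by linarith⟩) (by linarith)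
    · exact tb3 hC hI hA hB (abs_le.mpr ⟨by linarith, by linarith⟩) (by linarith)
    · exact tb2 hC hI hA hB (abs_le.mpr ⟨by linarith, by linarith⟩) (by linarith)
    · exact tb2 hC hI hA hB (abs_le.mpr ⟨by linarith, by linarith⟩) (by linarith)
    · exact tb2 hC hI hA hB (abs_le.mpr ⟨by linarith, by linarith⟩) (by linarith)
    · exact tb2 hC hI hA hB (abs_le.mpr ⟨by linarith, by linarith⟩) (by linarith)
    · exact tb2 hC hI hA hB (abs_le.mpr ⟨by linarith, by linarith⟩) (by linarith)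

/-- third side -/
theorem side3 {g : ℝ → ℝ} (hg : IntervalIntegrable g volume 0 1) {C : ℝ} (hC : 0 ≤ C)
    (hI : ∀ ω : ℝ, 0 < ω → |ct 1 g ω| ≤ C / ω) (a b : ℕ) (ha : 1 ≤ a) (hb : 1 ≤ b) :
    |(∫ s in (0 : ℝ)..1, g s * D3 a b s ^ 2) - (a ^ 2 + 3 * a * b + 3 * b ^ 2) * ct 1 g 0|
        ≤ 9 * (9 * C * (((a : ℝ) + b) ^ 2 * ((a : ℝ)⁻¹ + (b : ℝ)⁻¹))) ∧
    |(∫ s in (0 : ℝ)..1, g s * D3 a b s ^ 2) - (a ^ 2 + 3 * a * b + 3 * b ^ 2) * ct 1 g 0
        + 3 * b ^ 2 * (2 / 3 * ct 1 g (2 * Real.pi * a / 3)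
          + (-1) ^ a / 3 * ct 1 g (Real.pi * a / 3))|
        ≤ 10 * (18 * C * ((a : ℝ) ^ 2 * ((b : ℝ) + 1))) := by
  have hpi : 3 < Real.pi := Real.pi_gt_three
  have h := int_sq hg ((-1) ^ a * (a + 2 * b)) ((-1) ^ b * b) (-((-1) ^ (a + b) * (a + b)))
    (Real.pi * a / 3) (Real.pi * (2 * a + 3 * b) / 3)
    (Real.pi * (a + 3 * b) / 3) (D3 a b) (by intro t; unfold D3; ring_nf)
  have hA : (1 : ℝ) ≤ a := by exact_mod_cast ha
  have hB : (1 : ℝ) ≤ b := by exact_mod_cast hb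
  rw [pow_add] at h
  have hsa : (-1 : ℝ) ^ a = 1 ∨ (-1 : ℝ) ^ a = -1 := neg_one_pow_eq_or ℝ a
  have hsb : (-1 : ℝ) ^ b = 1 ∨ (-1 : ℝ) ^ b = -1 := neg_one_pow_eq_or ℝ b
  set sa : ℝ := (-1) ^ a
  set sb : ℝ := (-1) ^ b
  set A : ℝ := (a : ℝ)
  set B : ℝ := (b : ℝ)
  have e1 : Real.pi * (2 * A + 3 * B) / 3 - Real.pi * (A + 3 * B) / 3 = Real.pi * A / 3 := by ring
  have e2 : 2 * (Real.pi * A / 3) = 2 * Real.pi * A / 3 := by ring
  have e3 : Real.pi * A / 3 - Real.pi * (2 * A + 3 * B) / 3 = -(Real.pi * (A + 3 * B) / 3) := by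
    ring
  have e4 : Real.pi * A / 3 - Real.pi * (A + 3 * B) / 3 = -(Real.pi * B) := by ring
  rw [e1, e2, e3, e4, ct_neg, ct_neg] at h
  have hAB : 0 ≤ A * B := by positivity
  have hA2 : 1 ≤ A ^ 2 := by nlinarith
  have hB2 : 1 ≤ B ^ 2 := by nlinarith
  have hpA : 3 * A ≤ Real.pi * A := by nlinarith
  have hpB : 3 * B ≤ Real.pi * B := by nlinarith
  have hss : sa * sa = 1 := by rcases hsa with h | h <;> rw [h] <;> norm_num
  have hss' : sb * sb = 1 := by rcases hsb with h | h <;> rw [h] <;> norm_num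
  have aa : |sa| = 1 := by rcases hsa with h | h <;> rw [h] <;> norm_num
  have ab : |sb| = 1 := by rcases hsb with h | h <;> rw [h] <;> norm_num
  have q1 : (sa * (A + 2 * B)) ^ 2 = (A + 2 * B) ^ 2 := by
    linear_combination (A + 2 * B) ^ 2 * hss
  have q2 : (sb * B) ^ 2 = B ^ 2 := by linear_combination B ^ 2 * hss'
  have q3 : (-(sa * sb * (A + B))) ^ 2 = (A + B) ^ 2 := by
    linear_combination (A + B) ^ 2 * (sb ^ 2 * hss + hss')
  have q4 : sa * (A + 2 * B) * (sb * B) = sa * sb * (B * (A + 2 * B)) := by ring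
  have q5 : sa * (A + 2 * B) * (-(sa * sb * (A + B))) = -sb * ((A + 2 * B) * (A + B)) := by
    linear_combination (-sb * ((A + 2 * B) * (A + B))) * hss
  have q6 : sb * B * (-(sa * sb * (A + B))) = -sa * (B * (A + B)) := by
    linear_combination (-sa * (B * (A + B))) * hss'
  rw [q1, q2, q3, q4, q5, q6] at h
  have s4 : ∀ x : ℝ, |sa * sb * x| = |x| := by
    intro x
    rw [abs_mul, abs_mul, aa, ab]
    ring
  have s5 : ∀ x : ℝ, |(-sb) * x| = |x| := by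
    intro x
    rw [abs_mul, abs_neg, ab]
    ring
  have s6 : ∀ x : ℝ, |(-sa) * x| = |x| := by
    intro x
    rw [abs_mul, abs_neg, aa]
    ring
  constructor
  · refine sum9 (t1 := (-((A + 2 * B) ^ 2 / 2)) * ct 1 g (2 * Real.pi * A / 3))
      (t2 := (-(B ^ 2 / 2)) * ct 1 g (2 * (Real.pi * (2 * A + 3 * B) / 3)))
      (t3 := (-((A + B) ^ 2 / 2)) * ct 1 g (2 * (Real.pi * (A + 3 * B) / 3)))
      (t4 := sa * sb * (B * (A + 2 * B)) * ct 1 g (Real.pi * (A + 3 * B) / 3))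
      (t5 := (-(sa * sb * (B * (A + 2 * B)))) *
        ct 1 g (Real.pi * A / 3 + Real.pi * (2 * A + 3 * B) / 3))
      (t6 := -sb * ((A + 2 * B) * (A + B)) * ct 1 g (Real.pi * B))
      (t7 := (-(-sb * ((A + 2 * B) * (A + B)))) * ct 1 g (Real.pi * A / 3
        + Real.pi * (A + 3 * B) / 3))
      (t8 := -sa * (B * (A + B)) * ct 1 g (Real.pi * A / 3))
      (t9 := (-(-sa * (B * (A + B)))) * ct 1 g (Real.pi * (2 * A + 3 * B) / 3
        + Real.pi * (A + 3 * B) / 3))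
      (by rw [h]; ring) ?_ ?_ ?_ ?_ ?_ ?_ ?_ ?_ ?_
    · exact tb1 hC hI hA hB (abs_le.mpr ⟨by linarith, by linarith⟩) (Or.inl (by linarith))
    · exact tb1 hC hI hA hB (abs_le.mpr ⟨by linarith, by linarith⟩) (Or.inr (by linarith))
    · exact tb1 hC hI hA hB (abs_le.mpr ⟨by linarith, by linarith⟩) (Or.inr (by linarith))
    · exact tb1 hC hI hA hB (by rw [s4]; exact abs_le.mpr ⟨by linarith, by linarith⟩)
        (Or.inr (by linarith))
    · exact tb1 hC hI hA hB (by rw [abs_neg, s4]; exact abs_le.mpr ⟨by linarith, by linarith⟩)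
        (Or.inr (by linarith))
    · exact tb1 hC hI hA hB (by rw [s5]; exact abs_le.mpr ⟨by linarith, by linarith⟩)
        (Or.inr (by linarith))
    · exact tb1 hC hI hA hB (by rw [abs_neg, s5]; exact abs_le.mpr ⟨by linarith, by linarith⟩)
        (Or.inr (by linarith))
    · exact tb1 hC hI hA hB (by rw [s6]; exact abs_le.mpr ⟨by linarith, by linarith⟩)
        (Or.inl (by linarith))
    · exact tb1 hC hI hA hB (by rw [abs_neg, s6]; exact abs_le.mpr ⟨by linarith, by linarith⟩)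
        (Or.inr (by linarith))
  · have hT : (0 : ℝ) ≤ 18 * C * (A ^ 2 * (B + 1)) := by positivity
    refine (sum9 (T := 18 * C * (A ^ 2 * (B + 1)))
      (t1 := (-((A ^ 2 + 4 * A * B) / 2)) * ct 1 g (2 * Real.pi * A / 3))
      (t2 := (-(B ^ 2 / 2)) * ct 1 g (2 * (Real.pi * (2 * A + 3 * B) / 3)))
      (t3 := (-((A + B) ^ 2 / 2)) * ct 1 g (2 * (Real.pi * (A + 3 * B) / 3)))
      (t4 := sa * sb * (B * (A + 2 * B)) * ct 1 g (Real.pi * (A + 3 * B) / 3))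
      (t5 := (-(sa * sb * (B * (A + 2 * B)))) *
        ct 1 g (Real.pi * A / 3 + Real.pi * (2 * A + 3 * B) / 3))
      (t6 := -sb * ((A + 2 * B) * (A + B)) * ct 1 g (Real.pi * B))
      (t7 := (-(-sb * ((A + 2 * B) * (A + B)))) * ct 1 g (Real.pi * A / 3
        + Real.pi * (A + 3 * B) / 3))
      (t8 := -sa * (A * B) * ct 1 g (Real.pi * A / 3))
      (t9 := (-(-sa * (B * (A + B)))) * ct 1 g (Real.pi * (2 * A + 3 * B) / 3
        + Real.pi * (A + 3 * B) / 3))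
      (by rw [h]; ring) ?_ ?_ ?_ ?_ ?_ ?_ ?_ ?_ ?_).trans (by linarith)
    · exact tb3 hC hI hA hB (abs_le.mpr ⟨by linarith, by linarith⟩) (by linarith)
    · exact tb2 hC hI hA hB (abs_le.mpr ⟨by linarith, by linarith⟩) (by linarith)
    · exact tb2 hC hI hA hB (abs_le.mpr ⟨by linarith, by linarith⟩) (by linarith)
    · exact tb2 hC hI hA hB (by rw [s4]; exact abs_le.mpr ⟨by linarith, by linarith⟩)
        (by linarith)
    · exact tb2 hC hI hA hB (by rw [abs_neg, s4]; exact abs_le.mpr ⟨by linarith, by linarith⟩)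
        (by linarith)
    · exact tb2 hC hI hA hB (by rw [s5]; exact abs_le.mpr ⟨by linarith, by linarith⟩)
        (by linarith)
    · exact tb2 hC hI hA hB (by rw [abs_neg, s5]; exact abs_le.mpr ⟨by linarith, by linarith⟩)
        (by linarith)
    · exact tb3 hC hI hA hB (by rw [s6]; exact abs_le.mpr ⟨by linarith, by linarith⟩)
        (by linarith)
    · exact tb2 hC hI hA hB (by rw [abs_neg, s6]; exact abs_le.mpr ⟨by linarith, by linarith⟩)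
        (by linarith)

theorem trig : TrigStatement := by
  intro g1 g2 g3 ⟨i1, C1, h1⟩ ⟨i2, C2, h2⟩ ⟨i3, C3, h3⟩
  set C : ℝ := max 0 (max C1 (max C2 C3)) with hCdef
  have hC : 0 ≤ C := le_max_left _ _
  have hC1 : C1 ≤ C := (le_max_left _ _).trans (le_max_right _ _)
  have hC2 : C2 ≤ C := ((le_max_left _ _).trans (le_max_right _ _)).trans (le_max_right _ _)
  have hC3 : C3 ≤ C := ((le_max_right _ _).trans (le_max_right _ _)).trans (le_max_right _ _)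
  have b1 : ∀ ω : ℝ, 0 < ω → |ct 1 g1 ω| ≤ C / ω := fun ω hω =>
    (h1 ω hω).trans (div_le_div_of_nonneg_right hC1 hω.le)
  have b2 : ∀ ω : ℝ, 0 < ω → |ct 2 g2 ω| ≤ C / ω := fun ω hω =>
    (h2 ω hω).trans (div_le_div_of_nonneg_right hC2 hω.le)
  have b3 : ∀ ω : ℝ, 0 < ω → |ct 1 g3 ω| ≤ C / ω := fun ω hω =>
    (h3 ω hω).trans (div_le_div_of_nonneg_right hC3 hω.le)
  have hs3 : Real.sqrt 3 ≤ 3 := by
    rw [Real.sqrt_le_left (by norm_num)]
    norm_num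
  have hs0 : 0 ≤ Real.sqrt 3 := Real.sqrt_nonneg 3
  refine ⟨600 * C, ?_, ?_⟩
  · intro a b ha hb
    obtain ⟨p1, -⟩ := side1 i1 hC b1 a b ha hb
    obtain ⟨p2, -⟩ := side2 i2 hC b2 a b ha hb
    obtain ⟨p3, -⟩ := side3 i3 hC b3 a b ha hb
    rw [ct_zero] at p1 p2 p3
    have hA : (1 : ℝ) ≤ a := by exact_mod_cast ha
    have hB : (1 : ℝ) ≤ b := by exact_mod_cast hb
    unfold QQ
    set J1 := ∫ X in (0 : ℝ)..1, g1 X * D1 a b X ^ 2
    set J2 := ∫ s in (0 : ℝ)..2, g2 s * D2 a b s ^ 2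
    set J3 := ∫ y in (0 : ℝ)..1, g3 y * D3 a b y ^ 2
    set T : ℝ := C * (((a : ℝ) + b) ^ 2 * ((a : ℝ)⁻¹ + (b : ℝ)⁻¹)) with hT
    have hT0 : 0 ≤ T := by positivity
    have e : Real.sqrt 3 * J1 / 3 + J2 + J3
      - (a ^ 2 + 3 * a * b + 3 * b ^ 2) * (Real.sqrt 3 * (∫ X in (0 : ℝ)..1, g1 X)
        + (∫ s in (0 : ℝ)..2, g2 s) + ∫ y in (0 : ℝ)..1, g3 y)
      = Real.sqrt 3 / 3 * (J1 - 3 * (a ^ 2 + 3 * a * b + 3 * b ^ 2) * ∫ X in (0 : ℝ)..1, g1 X)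
        + (J2 - (a ^ 2 + 3 * a * b + 3 * b ^ 2) * ∫ X in (0 : ℝ)..2, g2 X)
        + (J3 - (a ^ 2 + 3 * a * b + 3 * b ^ 2) * ∫ X in (0 : ℝ)..1, g3 X) := by ring
    rw [e]
    refine (abs_add_three _ _ _).trans ?_
    rw [abs_mul, abs_of_nonneg (by positivity : 0 ≤ Real.sqrt 3 / 3)]
    have q1 : Real.sqrt 3 / 3 * |J1 - 3 * (a ^ 2 + 3 * a * b + 3 * b ^ 2)
        * ∫ X in (0 : ℝ)..1, g1 X| ≤ 1 * (81 * T) := by
      refine mul_le_mul (by linarith) ?_ (abs_nonneg _) (by norm_num)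
      refine p1.trans (le_of_eq ?_)
      rw [hT]; ring
    have q2 := p2.trans (le_of_eq (show _ = 81 * T by rw [hT]; ring))
    have q3 := p3.trans (le_of_eq (show _ = 81 * T by rw [hT]; ring))
    have q4 : 600 * C * (a + b) ^ 2 * ((a : ℝ)⁻¹ + (b : ℝ)⁻¹) = 600 * T := by rw [hT]; ring
    rw [q4]
    linarith
  · intro a b ha hb
    obtain ⟨-, p1⟩ := side1 i1 hC b1 a b ha hb
    obtain ⟨-, p2⟩ := side2 i2 hC b2 a b ha hb
    obtain ⟨-, p3⟩ := side3 i3 hC b3 a b ha hb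
    rw [ct_zero] at p1 p2 p3
    have hA : (1 : ℝ) ≤ a := by exact_mod_cast ha
    have hB : (1 : ℝ) ≤ b := by exact_mod_cast hb
    have k1 : ∫ X in (0 : ℝ)..1, g1 X * Real.cos (Real.pi * a * X) = ct 1 g1 (Real.pi * a) := rfl
    have k2 : ∫ s in (0 : ℝ)..2, g2 s * (2 / 3 * Real.cos (2 * Real.pi * a * s / 3)
          + 1 / 3 * Real.cos (Real.pi * a * s / 3))
        = 2 / 3 * ct 2 g2 (2 * Real.pi * a / 3) + 1 / 3 * ct 2 g2 (Real.pi * a / 3) := by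
      rw [int_sum i2 (n := 2) ![2 / 3, 1 / 3] ![2 * Real.pi * a / 3, Real.pi * a / 3] _ (by
        intro t
        simp only [Fin.sum_univ_two, Matrix.cons_val_zero, Matrix.cons_val_one]
        ring_nf)]
      simp only [Fin.sum_univ_two, Matrix.cons_val_zero, Matrix.cons_val_one]
    have k3 : ∫ s in (0 : ℝ)..1, g3 s * (2 / 3 * Real.cos (2 * Real.pi * a * s / 3)
          + (-1) ^ a / 3 * Real.cos (Real.pi * a * s / 3))
        = 2 / 3 * ct 1 g3 (2 * Real.pi * a / 3) + (-1) ^ a / 3 * ct 1 g3 (Real.pi * a / 3) := by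
      rw [int_sum i3 (n := 2) ![2 / 3, (-1) ^ a / 3] ![2 * Real.pi * a / 3, Real.pi * a / 3] _ (by
        intro t
        simp only [Fin.sum_univ_two, Matrix.cons_val_zero, Matrix.cons_val_one]
        ring_nf)]
      simp only [Fin.sum_univ_two, Matrix.cons_val_zero, Matrix.cons_val_one]
    rw [k1, k2, k3]
    unfold QQ
    set J1 := ∫ X in (0 : ℝ)..1, g1 X * D1 a b X ^ 2
    set J2 := ∫ s in (0 : ℝ)..2, g2 s * D2 a b s ^ 2
    set J3 := ∫ y in (0 : ℝ)..1, g3 y * D3 a b y ^ 2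
    set T : ℝ := C * ((a : ℝ) ^ 2 * ((b : ℝ) + 1)) with hT
    have hT0 : 0 ≤ T := by positivity
    have q1 := p1.trans (le_of_eq (show _ = 162 * T by rw [hT]; ring))
    have q2 := p2.trans (le_of_eq (show _ = 180 * T by rw [hT]; ring))
    have q3 := p3.trans (le_of_eq (show _ = 180 * T by rw [hT]; ring))
    have q4 : 600 * C * a ^ 2 * ((b : ℝ) + 1) = 600 * T := by rw [hT]; ring
    rw [q4]
    set X1 := J1 - 3 * (a ^ 2 + 3 * a * b + 3 * b ^ 2) * (∫ t in (0 : ℝ)..1, g1 t)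
        + 9 * b ^ 2 * ct 1 g1 (Real.pi * a) with hX1
    have q5 : Real.sqrt 3 / 3 * |X1| ≤ 1 * (162 * T) :=
      mul_le_mul (by linarith) q1 (abs_nonneg _) (by norm_num)
    refine le_trans (le_trans (le_of_eq (congrArg abs ?_)) (abs_add_three (Real.sqrt 3 / 3 * X1) _ _))
      (?_ : |Real.sqrt 3 / 3 * X1|
        + |J2 - (a ^ 2 + 3 * a * b + 3 * b ^ 2) * (∫ t in (0 : ℝ)..2, g2 t)
        + 3 * b ^ 2 * (2 / 3 * ct 2 g2 (2 * Real.pi * a / 3) + 1 / 3 * ct 2 g2 (Real.pi * a / 3))|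
        + |J3 - (a ^ 2 + 3 * a * b + 3 * b ^ 2) * (∫ t in (0 : ℝ)..1, g3 t)
        + 3 * b ^ 2 * (2 / 3 * ct 1 g3 (2 * Real.pi * a / 3)
          + (-1) ^ a / 3 * ct 1 g3 (Real.pi * a / 3))| ≤ _)
    · rw [hX1]; ring
    · rw [abs_mul, abs_of_nonneg (by positivity : 0 ≤ Real.sqrt 3 / 3)]
      linarith

end Pool.Agent.H5O.H32
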